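import Pool.Agent.Q44.JQ.StmE

/-!
# Project JQ, fourth version: the exact law for elliptic curves, without nice primes

For elliptic curves (`g = 1`) the local images are maximal isotropic, so the space of the solutions is
the Selmer group. Several curves are treated without nice primes: it is enough that the modules `V k`
over the free algebra generated by the operators are pairwise not isomorphic.
-/

set_option autoImplicit false
set_option linter.unusedVariables false

namespace Q44.JQ

open Finset Module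
open Pool.Agent.Y703.CQ (nr)
open Pool.Agent.TH344.JG (LocJ SelJ PR df)
open Pool.Agent.Y723.PT (tw)
open scoped Classical

/-- JQ-LSQ: the label of an integer which is a square in the fields at `T` is zero. Proof: `n` is a square
modulo `8 * ∏ p ∈ T, p` (Chinese remainder theorem; a unit of `ℤ_2` which is a square is a square modulo
16), so `lbl T n = lbl T (x ^ 2) = 0` by `S_LBL` (5) and (1). -/
def S_LSQ : Prop := ∀ T : Finset ℕ, (∀ p ∈ T, p.Prime) → 2 ∈ T → ∀ n : ℕ, Cop T n →
  (∀ (p : ℕ) [Fact p.Prime], p ∈ T → IsSquare ((n : ℕ) : ℚ_[p])) → lbl T n = 0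

/-- the group of the square classes -/
abbrev SC (K : Type) [Field K] : Type := Kˣ ⧸ (powMonoidHom 2 : Kˣ →* Kˣ).range

/-- the classes of the tuples which satisfy the local condition -/
def imJ (K : Type) [Field K] {n : ℕ} (a : Fin n → ℤ) : Set (Fin n → SC K) :=
  {x | ∃ u v : Polynomial K, u.Monic ∧
    u ∣ (∏ i, (Polynomial.X - Polynomial.C ((a i : ℤ) : K))) - v ^ 2 ∧
    ∀ i, ∃ w : Kˣ, (w : K) = (-1) ^ u.natDegree * u.eval ((a i : ℤ) : K) ∧
      x i = QuotientGroup.mk w}

/-- JQ-LSZ: the order of the local image of an elliptic curve with three rational roots is the number of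
the square classes (4 for odd `p`, 8 for `p = 2`, 2 for `ℝ`). Proof: `imJ K a` is the image of `E(K)`
under `P ↦ (x P - a i)`, with kernel `2 E(K)` (`LG.mul`, torsion elements in Y723/PT/Tor.lean, kernel
theorems for `x - a i` in many libraries), and `#(E(K) / 2 E(K)) = #E(K)[2] * #(U / 2 U)` for a subgroup `U`
of finite index without 2-torsion, the kernel of the reduction modulo `p ^ n`: its elements with parameter
`t = x / y`, `t` in `p ^ n ℤ_p`, `t (P + Q) = t P + t Q` modulo `p ^ (3 n)` (Y673/FM/Ker.lean,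
W275/FML: parameter `x / y`, addition, multiples), so `U = 2 U` for odd `p` and `#(U / 2 U) = 2` for
`p = 2` by successive approximation (or: count in the finite quotients `E(K) / U_n`; or give
enough points explicitly). For `ℝ`: the classes are those of `x > a_2` and of `a_0 < x < a_1`. The upper
bound `#imJ ≤ #SC` can also be obtained from the isotropy (`Pool.Agent.Y723.PT.isot`) and the
nondegeneracy of the Hilbert symbol. -/
def S_LSZ : Prop := (∀ (p : ℕ) [Fact p.Prime] (a : Fin 3 → ℤ), Function.Injective a →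
    Nat.card (imJ ℚ_[p] a) = Nat.card (SC ℚ_[p])) ∧
  ∀ a : Fin 3 → ℤ, Function.Injective a → Nat.card (imJ ℝ a) = Nat.card (SC ℝ)

/-- JQ-LXC: the space of the classes which satisfy all local conditions has the right order. Proof:
the map from the pairs `y` to the families of the tuples of the classes of `dz y.1 z` in `SC ℚ_p`,
`p ∈ T`, and `SC ℝ`, whose product is trivial, is an isomorphism of groups (injective by `S_LSQ`, orders
`#SC = 4` for odd `p`, 8 for `p = 2`, 2 for `ℝ`), and the space is the inverse image of the product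
of the local images (`S_LOCI`, `S_LCL`; `LG r` in terms of `imJ`). -/
def S_LXC : Prop := ∀ T : Finset ℕ, (∀ p ∈ T, p.Prime) → 2 ∈ T → ∀ c : Cr T, c.g = 1 →
  ∀ ρ : Option T → ZMod 2, ∃ 𝓛 : Submodule (ZMod 2) ((Option T → c.V) × (Option T → c.V)),
    (∀ y, y ∈ 𝓛 ↔ c.Lc ℝ ρ y ∧ ∀ p ∈ T, c.Lp p ρ y) ∧
    Nat.card 𝓛 = Nat.card c.V ^ Fintype.card (Option T)

/-- JQ-SELY: the solutions are elements of the Selmer group. Proof: for a solution `e` let
`d = dz e.1 (zx e.2)`; the local conditions at `T` and infinity hold by `S_LOCI`; at a prime `p` outside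
`T` and `S` the local image consists of unramified classes (good reduction, see the proof of `S_DEC`), and
both have 4 elements by `S_LSZ`; at a prime `p` of `S` the product of `d` and of the torsion tuple of
`e.2 p` (see `S_LCL`) has even valuations at `p` and its unit parts are squares modulo `p` since the
row vanishes (the torsion solution has row zero too, `S_TOR` or `S_ROW`), so `d` is in the local image
(`LG.mul`, `LG.congr`, `LG.one`). -/
def S_SELY : Prop := ∀ T : Finset ℕ, (∀ p ∈ T, p.Prime) → 2 ∈ T → ∀ c : Cr T, c.g = 1 →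
  ∀ (ρ : Option T → ZMod 2) (𝓛 : Submodule (ZMod 2) ((Option T → c.V) × (Option T → c.V))),
  (∀ y ∈ 𝓛, c.Lc ℝ ρ y ∧ ∀ p ∈ T, c.Lp p ρ y) → ∀ S : Finset ℕ, (∀ p ∈ S, p.Prime ∧ p ∉ T) →
  ∑ p ∈ S, lbl T p = ρ → (SelJ (tw ((∏ q ∈ S, q : ℕ) : ℤ) c.a)).Finite →
    Nat.card (Sel (c.dj 𝓛) (fun p q : S => nr p q) (fun p : S => lbl T p)) ≤
      (SelJ (tw ((∏ q ∈ S, q : ℕ) : ℤ) c.a)).ncard

/-- JQ-ARXE: the package for elliptic curves. Proof: `S_LXC`, `S_LCL`, `S_OMV`, `S_QZ` and `S_QLOC` (the space
is singular), `S_SELX` and `S_SELY`. -/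
def S_ARXE : Prop := ∀ T : Finset ℕ, (∀ p ∈ T, p.Prime) → 2 ∈ T → ∀ c : Cr T, c.g = 1 →
  ∃ 𝓛 : (Option T → ZMod 2) → Submodule (ZMod 2) ((Option T → c.V) × (Option T → c.V)),
    (∀ ρ, (c.dj (𝓛 ρ)).Ok ρ) ∧
    (∀ ρ y, y ∈ 𝓛 ρ ↔ c.Lc ℝ ρ y ∧ ∀ p ∈ T, c.Lp p ρ y) ∧
    ∀ ρ, ∀ S : Finset ℕ, (∀ p ∈ S, p.Prime ∧ p ∉ T) → ∑ p ∈ S, lbl T p = ρ →
      (SelJ (tw ((∏ q ∈ S, q : ℕ) : ℤ) c.a)).Finite ∧
      (SelJ (tw ((∏ q ∈ S, q : ℕ) : ℤ) c.a)).ncard =
        Nat.card (Sel (c.dj (𝓛 ρ)) (fun p q : S => nr p q) (fun p : S => lbl T p))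

/-- JQ-ADJ0: if every family of operators generates all endomorphisms and no two of the modules are
isomorphic, then the operators generate the product. Proof: let `A` be the algebra generated in the
product, `I k` the kernel of the (surjective) projection to `End (V k)`, a maximal two-sided ideal since
`End (V k)` is simple. If `I k = I l` for some `k ≠ l` then `End (V k)` and `End (V l)` are isomorphic by an
isomorphism which carries `T k φ` to `T l φ`, and it is given by an isomorphism of `V k` and `V l`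
(take a rank one idempotent of `End (V k)` and its image). Otherwise the `I k` are pairwise
comaximal and `A` maps onto the product (Chinese remainder theorem for two-sided ideals, or: products
of elements `x_l` in `I l` which are `1` modulo `I k` are zero at all `l ≠ k` and `1` at `k`). -/
def S_ADJ0 : Prop := ∀ (s κ : Type) [Fintype s] [Fintype κ] (V : κ → Type) [∀ k, AddCommGroup (V k)]
  [∀ k, Module (ZMod 2) (V k)] [∀ k, Finite (V k)] [∀ k, Nontrivial (V k)]
  (T : ∀ k, (s → ZMod 2) → Module.End (ZMod 2) (V k)),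
  (∀ k, Algebra.adjoin (ZMod 2) (Set.range (T k)) = ⊤) →
  (∀ k l, k ≠ l → ¬ ∃ f : V k ≃ₗ[ZMod 2] V l, ∀ φ x, f (T k φ x) = T l φ (f x)) →
  Algebra.adjoin (ZMod 2) (Set.range fun φ : s → ZMod 2 =>
    (fun k => T k φ : ∀ k, Module.End (ZMod 2) (V k))) = ⊤

/-- JQ-ISO1: isomorphisms of the modules of two elliptic curves. Proof: `V` has the three elements
`P i = e_j + e_l` different from zero, and `TT φ (P i) = pr φ (a i - a j) • P l + pr φ (a i - a l) • P j`
(`{i, j, l} = {0, 1, 2}`, `TT φ (P i)` has the components `pr φ (a i - a j) + pr φ (a i - a l)`,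
`pr φ (a i - a j)`, `pr φ (a i - a l)` at `i`, `j`, `l`); `f (P i) = P' (σ i)` for a permutation `σ`. -/
def S_ISO1 : Prop := ∀ (T : Finset ℕ) (c c' : Cr T), c.g = 1 → c'.g = 1 →
  (∃ f : c.V ≃ₗ[ZMod 2] c'.V, ∀ φ x, f (c.TT φ x) = c'.TT φ (f x)) →
  ∃ σ : Fin (2 * c.g + 1) ≃ Fin (2 * c'.g + 1), ∀ i j, i ≠ j →
    (ct (c.a i - c.a j) : Option T → ZMod 2) = ct (c'.a (σ i) - c'.a (σ j))

end Q44.JQ
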