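import Pool.Agent.Q44.JQ.StmG
import Pool.Agent.W307.SE.Stm

/-!
# Project JQ: comparison of the two descriptions of the 2-Selmer group of an elliptic curve
-/

set_option autoImplicit false
set_option linter.unusedVariables false

namespace Q44.JQ

open Finset
open Pool.Agent.TH344.JG (LocJ SelJ)
open Pool.Agent.W307.SE (LocR SelR)

/-- JQ-ELL: the Selmer group `SelJ e` (in terms of polynomials `u`, `v`) of `y ^ 2 = ∏ (x - e i)` is the Selmer
group `SelR A B` (in terms of points). Proof: `LocR K A B d` is equivalent to `LocJ K e (d ∘ e)` for
`K = ℚ_p` and `K = ℝ`: take `u = X - x`, `v = y`; conversely the divisor of `(u, v)` is the sum of a point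
`P` of `E(K)` (reduction to degree at most 1: `deg v < deg u` may be assumed, then replace `u` by
`(∏ (X - e i) - v ^ 2) / u` up to sign; compare the proof of `S_LSZ` and the theorems on reduced divisors),
and if `P` is a 2-torsion point or zero add `2 Q` for a suitable point `Q` (the group `E(K)` is
infinite); or use that both images have the same order. -/
def S_ELL : Prop := ∀ (A B : ℤ) (e : Fin 3 → ℤ), Function.Injective e →
  (∀ x : ℤ, x ^ 3 + A * x + B = (x - e 0) * (x - e 1) * (x - e 2)) → (SelJ e).Finite →
  (SelR A B).Finite ∧ (SelR A B).ncard = (SelJ e).ncard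

end Q44.JQ
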