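import Mathlib
import Pool.Agent.Y703.CQ.Stm

/-!
# Project JQ, part I: systems of linear equations of the type of the 2-Selmer group of a Jacobian with
full rational 2-torsion, completed by random quadratic residue symbols

`s` is a finite set with a distinguished element `s₀` (the sign), `V` a finite vector space over the
field with two elements with an alternating form `ω` and operators `T φ`, `φ` a vector indexed by `s`
(a label), `ω (T φ x) y = ω x (T φ y) + φ s₀ * ω x y`. An element of the system of a finite set `P` of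
primes with labels `h p` and symbols `N p q`, `N q p = N p q + h p s₀ * h q s₀`, is a pair `(δ, x)`,
`δ` a vector in `V` indexed by `s`, `x` a vector in `V` indexed by `P`, such that

`∑ q, N p q • (x q + x p) + T (h p) (x p) + ∑ t, h p t • δ t = 0` for all `p` in `P`

and `(δ, (∑ p, h p t • x p)_t)` is in the subspace `𝓛`.
-/

set_option autoImplicit false
set_option linter.unusedVariables false

namespace Q44.JQ

open Finset Module
open Pool.Agent.Y703.CQ (prs ext)
open scoped Classical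

/-- the data of one family -/
structure Dj (s V : Type) [AddCommGroup V] [Module (ZMod 2) V] where
  ω : V →ₗ[ZMod 2] V →ₗ[ZMod 2] ZMod 2
  T : (s → ZMod 2) →ₗ[ZMod 2] V →ₗ[ZMod 2] V
  s₀ : s
  𝓛 : Submodule (ZMod 2) ((s → V) × (s → V))

/-- sign of an element of the field with two elements -/
noncomputable def sg (a : ZMod 2) : ℝ := if a = 0 then 1 else -1

section one

variable {s V : Type} [Fintype s] [AddCommGroup V] [Module (ZMod 2) V]

/-- the quadratic form -/
noncomputable def Dj.q (D : Dj s V) (y : (s → V) × (s → V)) : ZMod 2 :=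
  ∑ t, D.ω (y.2 t) (y.1 t) + ∑ t, D.ω (y.2 t) (D.T (Pi.single t 1) (y.2 t))

/-- the same data with the form `ω (S x) y` -/
noncomputable def Dj.tw (D : Dj s V) (S : V →ₗ[ZMod 2] V) : Dj s V := { D with ω := D.ω.comp S }

/-- `ω` is alternating and the operators are self-adjoint up to the sign of the label -/
structure Dj.Sym (D : Dj s V) : Prop where
  alt : ∀ x, D.ω x x = 0
  adj : ∀ φ x y, D.ω (D.T φ x) y = D.ω x (D.T φ y) + φ D.s₀ * D.ω x y

/-- the conditions on the data in the class `ρ` -/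
structure Dj.Ok (D : Dj s V) (ρ : s → ZMod 2) : Prop extends Dj.Sym D where
  nd : ∀ x, (∀ y, D.ω x y = 0) → x = 0
  card : Nat.card D.𝓛 = Nat.card V ^ Fintype.card s
  sing : ∀ y ∈ D.𝓛, D.q y = 0
  tor : ∀ x : V, ((fun t => D.T (Pi.single t 1) x), (fun t => ρ t • x)) ∈ D.𝓛

/-- the elements of `𝓛` with second component zero -/
noncomputable def Dj.pm (D : Dj s V) : Submodule (ZMod 2) (s → V) :=
  D.𝓛.comap (LinearMap.inl (ZMod 2) (s → V) (s → V))

variable {P : Type} [Fintype P]

/-- the rows -/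
noncomputable def rowL (D : Dj s V) (N : P → P → ZMod 2) (h : P → s → ZMod 2) :
    ((s → V) × (P → V)) →ₗ[ZMod 2] (P → V) where
  toFun e p := ∑ q, N p q • (e.2 q + e.2 p) + D.T (h p) (e.2 p) + ∑ t, h p t • e.1 t
  map_add' e e' := by
    funext p
    simp only [Prod.fst_add, Prod.snd_add, Pi.add_apply, map_add, smul_add, sum_add_distrib]
    abel
  map_smul' c e := by
    funext p
    simp only [Prod.smul_fst, Prod.smul_snd, Pi.smul_apply, map_smul, RingHom.id_apply, smul_add,
      smul_sum, smul_comm c]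

/-- the class of an element -/
noncomputable def clL (h : P → s → ZMod 2) :
    ((s → V) × (P → V)) →ₗ[ZMod 2] ((s → V) × (s → V)) where
  toFun e := (e.1, fun t => ∑ p, h p t • e.2 p)
  map_add' e e' := by
    refine Prod.ext rfl ?_
    funext t
    simp only [Prod.snd_add, Pi.add_apply, smul_add, sum_add_distrib]
  map_smul' c e := by
    refine Prod.ext rfl ?_
    funext t
    simp only [Prod.smul_snd, Pi.smul_apply, RingHom.id_apply, smul_sum, smul_comm c]

/-- the solutions of the system -/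
noncomputable def Sel (D : Dj s V) (N : P → P → ZMod 2) (h : P → s → ZMod 2) :
    Submodule (ZMod 2) ((s → V) × (P → V)) :=
  D.𝓛.comap (clL h) ⊓ LinearMap.ker (rowL D N h)

/-- reciprocity of the symbols -/
def Rec (N : P → P → ZMod 2) (h : P → s → ZMod 2) (t₀ : s) : Prop :=
  ∀ p q, p ≠ q → N q p = N p q + h p t₀ * h q t₀

/-- the labels span -/
def Spn (h : P → s → ZMod 2) : Prop :=
  ∀ l : s → ZMod 2, (∀ p, ∑ t, l t * h p t = 0) → l = 0

/-- the span of the differences -/
def dif {ι : Type} (x : ι → V) : Submodule (ZMod 2) V :=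
  Submodule.span (ZMod 2) (Set.range fun ij : ι × ι => x ij.1 + x ij.2)

end one

/-- the data of a block: the elements of `U` are small, those of `ι` large primes, all symbols except
those of two large primes are given -/
structure Bk (s U ι : Type) where
  A : U → U → ZMod 2
  B : U → ι → ZMod 2
  C : ι → U → ZMod 2
  hU : U → s → ZMod 2
  hJ : ι → s → ZMod 2

section block

variable {s U ι : Type} [Fintype s] [Fintype U] [Fintype ι] [LinearOrder ι]

/-- the symbols -/
noncomputable def Bk.N (b : Bk s U ι) (t₀ : s) (α : prs (univ : Finset ι) → ZMod 2) :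
    U ⊕ ι → U ⊕ ι → ZMod 2
  | .inl u, .inl u' => b.A u u'
  | .inl u, .inr i => b.B u i
  | .inr i, .inl u => b.C i u
  | .inr i, .inr j => ext α i j + (if j < i then b.hJ i t₀ * b.hJ j t₀ else 0)

/-- the labels -/
def Bk.h (b : Bk s U ι) : U ⊕ ι → s → ZMod 2 := Sum.elim b.hU b.hJ

/-- the conditions on the block: reciprocity, nondegeneracy, many large primes of each label, class of
the product -/
structure Bk.Ok (b : Bk s U ι) (t₀ : s) (ρ : s → ZMod 2) (R : ℕ) : Prop where
  rU : ∀ u u', u ≠ u' → b.A u' u = b.A u u' + b.hU u t₀ * b.hU u' t₀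
  rJ : ∀ u i, b.B u i = b.C i u + b.hU u t₀ * b.hJ i t₀
  nd : ∀ μ : U → ZMod 2, μ ≠ 0 → ∃ i, b.hJ i = 0 ∧ ∑ u, μ u * b.C i u ≠ 0
  many : ∀ φ : s → ZMod 2, R * (Fintype.card U + 1) ≤ (univ.filter fun i => b.hJ i = φ).card
  tot : ∑ p, b.h p = ρ

variable {V : Type} [AddCommGroup V] [Module (ZMod 2) V]

/-- the elements which satisfy the conditions that do not depend on the random symbols -/
noncomputable def EU (D : Dj s V) (b : Bk s U ι) : Submodule (ZMod 2) ((s → V) × (U ⊕ ι → V)) :=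
  D.𝓛.comap (clL b.h) ⊓ LinearMap.ker ((LinearMap.funLeft (ZMod 2) V Sum.inl).comp
    (rowL D (b.N D.s₀ 0) b.h))

/-- the number of the solutions such that the span of the differences of the components at the large
primes has the property `Gm` -/
noncomputable def cnt (D : Dj s V) (b : Bk s U ι) (Gm : Submodule (ZMod 2) V → Prop)
    (α : prs (univ : Finset ι) → ZMod 2) : ℕ :=
  Nat.card {e : (s → V) × (U ⊕ ι → V) // e ∈ Sel D (b.N D.s₀ α) b.h ∧
    Gm (dif fun i => e.2 (Sum.inr i))}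

end block

/-! ### The statements -/

/-- JQ-ID: `∑ ω (x_p, row_p) = q (class)`. Proof: expand. `∑_{p,q} N p q ω (x_p, x_q) =
∑_{p<q} v_p v_q ω (x_p, x_q)` by reciprocity (`v_p = h p s₀`; choose any linear order or use symmetry),
`∑_t ω (ψ_t, T_t ψ_t)` with `ψ_t = ∑_p h p t x_p` is the diagonal part
`∑_t ∑_p h p t ω (x_p, T_t x_p) = ∑_p ω (x_p, T (h p) x_p)` plus
`∑_t ∑_{p<q} h p t h q t (ω (x_p, T_t x_q) + ω (x_q, T_t x_p))` and the bracket is
`(Pi.single t 1) s₀ * ω (x_p, x_q)` by `adj`, which is zero unless `t = s₀`. -/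
def S_ID : Prop := ∀ (s V P : Type) [Fintype s] [AddCommGroup V] [Module (ZMod 2) V] [Fintype P]
  (D : Dj s V), D.Sym → ∀ (N : P → P → ZMod 2) (h : P → s → ZMod 2), Rec N h D.s₀ →
  ∀ e : (s → V) × (P → V), ∑ p, D.ω (e.2 p) (rowL D N h e p) = D.q (clL h e)

/-- JQ-PAR: the parity of the dimension of the solutions. Proof: let `E` be the space of the `e` with
class in `𝓛` (`#E = #V ^ #P` because `clL` is surjective by `Spn`, so its dimension is even, the
dimension of `V` being even by `alt` and `nd`), `b e e' = ∑_p ω (e'.2 p) (row_p e)`. By `S_ID` and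
`sing` it is alternating on `E`. Its radical is the direct sum of `Sel` and of the `(γ, 0)`, `γ` in
`pm`: if `e` is in the radical then for all `x'` with `∑_p h p t • x'_p = 0` for all `t` we have
`(0, x')` in `E`, so `∑_p ω (x'_p, row_p e) = 0`; hence `row_p e = ∑_t h p t • γ_t` for some `γ`; then for
all `(δ', ψ')` in `𝓛`: `∑_t ω (ψ'_t, γ_t) = 0`, that is `(γ, 0)` is orthogonal to `𝓛` for the polar
form of `q`, and `𝓛` is its own orthogonal because of `card`; so `(γ, 0)` is in `𝓛` and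
`e + (γ, 0)` in `Sel`. -/
def S_PAR : Prop := ∀ (s V P : Type) [Fintype s] [AddCommGroup V] [Module (ZMod 2) V] [Finite V]
  [Fintype P] (D : Dj s V) (ρ : s → ZMod 2), D.Ok ρ →
  ∀ (N : P → P → ZMod 2) (h : P → s → ZMod 2), Rec N h D.s₀ → Spn h →
  ((finrank (ZMod 2) (Sel D N h) : ℕ) : ZMod 2) = ((finrank (ZMod 2) D.pm : ℕ) : ZMod 2)

/-- JQ-TOR: the torsion: the elements `t x = ((T_t x)_t, (x)_p)` are solutions (`∑_p h p = ρ`). -/
def S_TOR : Prop := ∀ (s V P : Type) [Fintype s] [AddCommGroup V] [Module (ZMod 2) V] [Fintype P]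
  (D : Dj s V) (ρ : s → ZMod 2), D.Ok ρ → ∀ (N : P → P → ZMod 2) (h : P → s → ZMod 2),
  ∑ p, h p = ρ → ∀ x : V, ((fun t => D.T (Pi.single t 1) x), (fun _ => x)) ∈ Sel D N h

/-- JQ-PROB: the number of the `α` for which `e` satisfies the rows of the large primes, as a
character sum: `#V ^ (-ι) ∑_W (-1) ^ (∑ ω (W_i, row_i))`, and the coefficient of `α (i, j)` in the
exponent is `ω (W_i + W_j, x_i + x_j)`. -/
def S_PROB : Prop := ∀ (s V U ι : Type) [Fintype s] [AddCommGroup V] [Module (ZMod 2) V] [Fintype V]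
  [Fintype U] [Fintype ι] [LinearOrder ι] (D : Dj s V), D.Sym →
  (∀ x, (∀ y, D.ω x y = 0) → x = 0) → ∀ (b : Bk s U ι) (e : (s → V) × (U ⊕ ι → V)),
  (((univ : Finset (prs (univ : Finset ι) → ZMod 2)).filter fun α =>
      ∀ i, rowL D (b.N D.s₀ α) b.h e (Sum.inr i) = 0).card : ℝ) *
      (Fintype.card V : ℝ) ^ Fintype.card ι =
    2 ^ (prs (univ : Finset ι)).card * ∑ W : ι → V,
      if ∀ i j, D.ω (W i + W j) (e.2 (Sum.inr i) + e.2 (Sum.inr j)) = 0 then
        sg (∑ i, D.ω (W i) (rowL D (b.N D.s₀ 0) b.h e (Sum.inr i))) else 0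

/-- JQ-EU: the number of the elements of `EU`. Proof: the elements with class in `𝓛` are
`#V ^ (#U + #ι)` in number (`clL` is surjective); the `#U` remaining conditions are independent: if
`Y : U → V` is such that `∑_u ω (Y_u, row_u e) = 0` for all `e` with class in `𝓛`, then by the
polarisation of `S_ID` with `e' = (0, Y)` and `e = (0, x)`, `∑_p h p t • x_p = 0` for all `t`, the rows of
`e'` are `∑_t h p t • γ_t` for some `γ`; at the large primes this gives `∑_u C i u • Y_u = ∑_t hJ i t • γ_t`,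
and `Y = 0` by `nd` (compose with the linear forms on `V`). -/
def S_EU : Prop := ∀ (s V U ι : Type) [Fintype s] [AddCommGroup V] [Module (ZMod 2) V] [Finite V]
  [Fintype U] [Fintype ι] [LinearOrder ι] (D : Dj s V) (ρ : s → ZMod 2), D.Ok ρ →
  ∀ b : Bk s U ι, b.Ok D.s₀ ρ 1 → Nat.card (EU D b) = Nat.card V ^ Fintype.card ι

/-- JQ-MAIN: the exponent vanishes on the graphs. Proof: `S_ID` for `D.tw S` (same rows, since the
form does not enter in the rows) gives `∑_p ω (S x_p, row_p) = q_S (class) = 0`, and `row_u = 0`;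
`∑_p ω (w, row_p) = 0` is the polar form of `q` at the class of `e` and of `t w` (`S_TOR`). -/
def S_MAIN : Prop := ∀ (s V U ι : Type) [Fintype s] [AddCommGroup V] [Module (ZMod 2) V]
  [Fintype U] [Fintype ι] [LinearOrder ι] (D : Dj s V) (ρ : s → ZMod 2), D.Ok ρ →
  ∀ b : Bk s U ι, b.Ok D.s₀ ρ 1 → ∀ S : V →ₗ[ZMod 2] V, (∀ φ x, S (D.T φ x) = D.T φ (S x)) →
  (∀ x, D.ω (S x) x = 0) → (∀ y ∈ D.𝓛, (D.tw S).q y = 0) → ∀ e ∈ EU D b, ∀ w : V,
    ∑ i, D.ω (S (e.2 (Sum.inr i)) + w) (rowL D (b.N D.s₀ 0) b.h e (Sum.inr i)) = 0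

/-- JQ-NINV: the contribution of a subspace `Λ` which is not invariant. Proof: write the indicator of
`EU` as an average of characters; fix `δ`, the `x_u` and the coset `z + Λ` of the
`Z_i = (x_i, W_i)`; the exponent is a function of the `Z_i` with `hJ i s₀ = 1` plus a sum over the
`i` with `hJ i s₀ = 0` of functions of `Z_i` alone, for `hJ i = φ` this function is
`ω (W_i, T φ x_i)` plus an affine function on the coset (note
`ω (W_i, ∑_u C i u (x_u + x_i))` is affine since `ω (W, x)` vanishes on `Λ`, and `B u i = C i u`),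
its second difference in the directions `λ`, `λ'` of `Λ` is
`ω (λ.2, T φ λ'.1) + ω (λ'.2, T φ λ.1)`, which is not identically zero: otherwise `T φ Λ` is
orthogonal to `Λ` for the polar form of `ω (z.2, z.1)`, and `Λ` is its own orthogonal because of its
order. So the sum over `Z_i` is at most `#Λ / 2` in absolute value (`S_GS`). -/
def S_NINV : Prop := ∀ (s V U ι : Type) [Fintype s] [AddCommGroup V] [Module (ZMod 2) V] [Fintype V]
  [Fintype U] [Fintype ι] [LinearOrder ι] (D : Dj s V) (ρ : s → ZMod 2), D.Ok ρ →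
  ∀ b : Bk s U ι, b.Ok D.s₀ ρ 1 → ∀ Λ : Submodule (ZMod 2) (V × V),
  (∀ z ∈ Λ, D.ω z.2 z.1 = 0) → Nat.card Λ = Fintype.card V →
  ∀ φ : s → ZMod 2, φ D.s₀ = 0 → (∃ z ∈ Λ, (D.T φ z.1, D.T φ z.2) ∉ Λ) →
  |∑ e : (s → V) × (U ⊕ ι → V), ∑ W : ι → V, if e ∈ EU D b ∧
      (∀ i j, (e.2 (Sum.inr i) + e.2 (Sum.inr j), W i + W j) ∈ Λ) then
        sg (∑ i, D.ω (W i) (rowL D (b.N D.s₀ 0) b.h e (Sum.inr i))) else 0| ≤
    (Fintype.card V : ℝ) ^ (1 + Fintype.card s + Fintype.card U + Fintype.card ι) /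
      2 ^ (univ.filter fun i => b.hJ i = φ).card

/-- JQ-GS: Gauss sum (blocks of four elements). -/
def S_GS : Prop := ∀ (L : Type) [AddCommGroup L] [Fintype L] (f : L → ZMod 2) (a b : L),
  (∀ x, x + x = 0) → (∀ x, f x + f (x + a) + f (x + b) + f (x + a + b) = 1) →
  |∑ x, sg (f x)| ≤ (Fintype.card L : ℝ) / 2

/-- JQ-NMAX: few families `Z` such that the span of the differences is singular and not maximal.
Proof: the span `Λ'` of the differences has at most `#V / 2` elements; choose `Λ'` and `Z_{i₀}`; the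
other `Z_i` are in `Z_{i₀} + Λ'`. -/
def S_NMAX : Prop := ∀ (V ι : Type) [AddCommGroup V] [Module (ZMod 2) V] [Fintype V] [Fintype ι],
  (((univ : Finset (ι → V × V)).filter fun Z => Nat.card (dif Z) < Fintype.card V).card : ℝ) ≤
    (Nat.card (Submodule (ZMod 2) (V × V)) : ℝ) * (Fintype.card V : ℝ) ^ 2 *
      ((Fintype.card V : ℝ) / 2) ^ Fintype.card ι

/-- JQ-ORT: a family of pairwise unlinked `Z` spans a singular subspace, of order at most `#V`. -/
def S_ORT : Prop := ∀ (V ι : Type) [AddCommGroup V] [Module (ZMod 2) V] [Finite V] [Fintype ι]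
  (ω : V →ₗ[ZMod 2] V →ₗ[ZMod 2] ZMod 2), (∀ x, ω x x = 0) → (∀ x, (∀ y, ω x y = 0) → x = 0) →
  ∀ Z : ι → V × V, (∀ i j, ω (Z i + Z j).2 (Z i + Z j).1 = 0) →
  (∀ z ∈ dif Z, ω z.2 z.1 = 0) ∧ Nat.card (dif Z) ≤ Nat.card V

/-- JQ-LAM: the mean number of the solutions. Proof: `S_PROB` and the decomposition of the pairs
`(e, W)` with unlinked `Z_i = (x_i, W_i)` according to the span `Λ` of the differences of the `Z_i`
(singular, `S_ORT`); the span of the differences of the `x_i` is the first projection of `Λ`. If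
`#Λ < #V`: `S_NMAX`, at most `#V ^ (#s + #U)` possibilities for `δ` and the `x_u`. If `#Λ = #V` and
the first projection has the property `Gm`: replace the `Z` with span `Λ` by all `Z` with differences
in `Λ` (`S_NMAX` again); if `Λ` is not invariant use `S_NINV`; otherwise `Λ` is the graph of an `S` in `𝒮`
by `hS`, `W_i = S x_i + w`, and by `S_MAIN` and `S_EU` the sum is `#V * #V ^ #ι`. -/
def S_LAM : Prop := ∀ (s V : Type) [Fintype s] [AddCommGroup V] [Module (ZMod 2) V] [Finite V]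
  (D : Dj s V) (ρ : s → ZMod 2), D.Ok ρ → ∀ (Gm : Submodule (ZMod 2) V → Prop)
  (𝒮 : Finset (V →ₗ[ZMod 2] V)),
  (∀ S ∈ 𝒮, (∀ φ x, S (D.T φ x) = D.T φ (S x)) ∧ (∀ x, D.ω (S x) x = 0) ∧
    (∀ y ∈ D.𝓛, (D.tw S).q y = 0) ∧ Gm ⊤) →
  (∀ Λ : Submodule (ZMod 2) (V × V), (∀ z ∈ Λ, D.ω z.2 z.1 = 0) → Nat.card Λ = Nat.card V →
    Gm (Λ.map (LinearMap.fst (ZMod 2) V V)) →
    (∀ φ : s → ZMod 2, φ D.s₀ = 0 → ∀ z ∈ Λ, (D.T φ z.1, D.T φ z.2) ∈ Λ) →
    ∃ S ∈ 𝒮, ∀ z, z ∈ Λ ↔ z.2 = S z.1) →
  ∀ ε : ℝ, 0 < ε → ∃ R : ℕ, 1 ≤ R ∧ ∀ (U ι : Type) [Fintype U] [Fintype ι] [LinearOrder ι]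
    (b : Bk s U ι), b.Ok D.s₀ ρ R →
    |(∑ α : prs (univ : Finset ι) → ZMod 2, (cnt D b Gm α : ℝ)) / 2 ^ (prs (univ : Finset ι)).card -
      (Nat.card V : ℝ) * (𝒮.card : ℝ)| ≤ ε

end Q44.JQ
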