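import Pool.Agent.Q44.JQ.Stm

/-!
# Project JQ: the parity without the condition that the labels span
-/

set_option autoImplicit false
set_option linter.unusedVariables false

namespace Q44.JQ

open Finset Module
open scoped Classical

/-- JQ-PAR0: `S_PAR` without `Spn h`. Proof: let `H` be the space of the `ψ : s → V` of the form
`ψ t = ∑ p, h p t • x p`, `W = {(δ, ψ) : ψ ∈ H}`, `E` the space of the `e` with `clL h e ∈ 𝓛`,
`K = {γ : ∑ t, h p t • γ t = 0 for all p}`; `K` is the orthogonal of `H` for `∑ t, ω (ψ t) (γ t)`, and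
`K × 0` is the orthogonal of `W` for the polar form `B (y, y') = ∑ t, (ω (y.2 t) (y'.1 t) + ω (y'.2 t) (y.1 t))
+ (terms in the second components)` of `D.q`. (1) `clL h` maps onto `W` with kernel
`{(0, x) : ∑ p, h p t • x p = 0}` of dimension a multiple of the even number `dim V`, so
`dim E = dim (𝓛 ∩ W)` modulo 2; `𝓛` is its own orthogonal, so `dim (𝓛 ∩ W) = dim 𝓛 + dim W -
(2 #s dim V - dim (𝓛 ∩ (K × 0)))`, which is `dim (pm ∩ K)` modulo 2. (2) As in the proof of `S_PAR` the form
`b e e' = ∑_p ω (e'.2 p) (row_p e)` is alternating on `E` and its radical is the sum of `Sel` and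
of the `(γ, 0)`, `γ ∈ pm` (if `e` is in the radical then `row_p e = ∑_t h p t • γ_t` for some `γ`, `(γ, 0)` is
orthogonal to `𝓛 ∩ W`, hence in `𝓛 + K × 0`; change `γ` by an element of `K`); the intersection of
the two is `pm ∩ K`. So `dim E = dim Sel + dim pm - dim (pm ∩ K)` modulo 2. -/
def S_PAR0 : Prop := ∀ (s V P : Type) [Fintype s] [AddCommGroup V] [Module (ZMod 2) V] [Finite V]
  [Fintype P] (D : Dj s V) (ρ : s → ZMod 2), D.Ok ρ →
  ∀ (N : P → P → ZMod 2) (h : P → s → ZMod 2), Rec N h D.s₀ →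
  ((finrank (ZMod 2) (Sel D N h) : ℕ) : ZMod 2) = ((finrank (ZMod 2) D.pm : ℕ) : ZMod 2)

end Q44.JQ
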