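import Pool.Agent.Y723.PT.Tor

/-!
# Bounds for all powers of two
-/

set_option autoImplicit false

open scoped Classical

namespace Q44.JQ

open Finset
open Pool.Agent.Y723 Pool.Agent.Y723.PT Pool.Agent.Y723.HJ

/-- the subgroup of the multiples -/
def mulS (A : Type) [AddCommGroup A] (n : ℕ) : AddSubgroup A := (nsmulAddMonoidHom n : A →+ A).range

theorem mem_mulS {A : Type} [AddCommGroup A] {n : ℕ} {x : A} : x ∈ mulS A n ↔ ∃ y, n • y = x :=
  Iff.rfl

/-- growth of the quotients by the multiples of powers of two -/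
theorem idx_pow {A ι : Type} [AddCommGroup A] [Fintype ι] (P : ι → A) (h2 : ∀ i, P i + P i = 0)
    (hP : ∀ i j, -P i + P j ∈ mulS A 2 → i = j) (hf : (mulS A 2).index ≠ 0) (m : ℕ) :
    (mulS A (2 ^ (m + 1))).index ≠ 0 ∧
      (mulS A (2 ^ (m + 1))).index * Fintype.card ι ^ m ≤ (mulS A 2).index ^ (m + 1) := by
  induction m with
  | zero =>
    rw [zero_add, pow_one, pow_zero, mul_one, pow_one]
    exact ⟨hf, le_rfl⟩
  | succ m ih =>
    obtain ⟨ih1, ih2⟩ := ih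
    set f : A →+ A := nsmulAddMonoidHom (2 ^ (m + 1)) with hfd
    set K : AddSubgroup A := (mulS A (2 ^ (m + 1 + 1))).comap f with hK
    have h2K : mulS A 2 ≤ K := by
      rintro x ⟨y, rfl⟩
      refine ⟨y, ?_⟩
      show 2 ^ (m + 1 + 1) • y = 2 ^ (m + 1) • (2 • y)
      rw [smul_smul]
      congr 1
    have hPK : ∀ i, P i ∈ K := by
      intro i
      refine ⟨0, ?_⟩
      show 2 ^ (m + 1 + 1) • (0 : A) = 2 ^ (m + 1) • P i
      rw [smul_zero, pow_succ, mul_smul, two_nsmul, h2, smul_zero]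
    have h3 : (mulS A 2).relIndex K * K.index = (mulS A 2).index :=
      AddSubgroup.relIndex_mul_index h2K
    have hKi : K.index ≠ 0 := fun h => hf (by rw [← h3, h, mul_zero])
    have hr : (mulS A 2).relIndex K ≠ 0 := fun h => hf (by rw [← h3, h, zero_mul])
    have h4 : Fintype.card ι ≤ (mulS A 2).relIndex K := by
      haveI : Finite (K ⧸ (mulS A 2).addSubgroupOf K) := by
        refine Nat.finite_of_card_ne_zero ?_
        exact hr
      rw [← Nat.card_eq_fintype_card]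
      refine Nat.card_le_card_of_injective
        (fun i => (QuotientAddGroup.mk (⟨P i, hPK i⟩ : K) : K ⧸ (mulS A 2).addSubgroupOf K)) ?_
      intro i j hij
      have h5 := (QuotientAddGroup.eq).1 hij
      exact hP i j h5
    have h5 : K.index = (mulS A (2 ^ (m + 1 + 1))).relIndex (mulS A (2 ^ (m + 1))) :=
      AddSubgroup.index_comap _ f
    have h6 : mulS A (2 ^ (m + 1 + 1)) ≤ mulS A (2 ^ (m + 1)) := by
      rintro x ⟨y, rfl⟩
      refine ⟨2 • y, ?_⟩
      show 2 ^ (m + 1) • (2 • y) = 2 ^ (m + 1 + 1) • y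
      rw [smul_smul]
      congr 1
    have h7 : (mulS A (2 ^ (m + 1 + 1))).relIndex (mulS A (2 ^ (m + 1))) *
        (mulS A (2 ^ (m + 1))).index = (mulS A (2 ^ (m + 1 + 1))).index :=
      AddSubgroup.relIndex_mul_index h6
    rw [← h5] at h7
    refine ⟨by rw [← h7]; exact mul_ne_zero hKi ih1, ?_⟩
    calc (mulS A (2 ^ (m + 1 + 1))).index * Fintype.card ι ^ (m + 1) =
        (Fintype.card ι * K.index) * ((mulS A (2 ^ (m + 1))).index * Fintype.card ι ^ m) := by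
          rw [← h7]
          ring
      _ ≤ ((mulS A 2).relIndex K * K.index) * (mulS A 2).index ^ (m + 1) :=
          Nat.mul_le_mul (Nat.mul_le_mul_right _ h4) ih2
      _ = (mulS A 2).index ^ (m + 1 + 1) := by
          rw [h3]
          ring

/-- **the bounds for all powers of two** -/
theorem bd_of {g : ℕ} (hg : 1 ≤ g) {q : ℕ} {a : Fin (2 * g + 1) → ℤ} (ha : Function.Injective a)
    (hq : q.Prime) (hnd : ¬ q ∣ DA a) (hfin : (Pool.Agent.TH344.JG.SelJ (tw q a)).Finite) {e : ℕ}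
    (hcard : (Pool.Agent.TH344.JG.SelJ (tw q a)).ncard ≤ 2 ^ (2 * g + e)) (m : ℕ) (hm : 1 ≤ m) :
    Finite (SJ.QuotQ (tw q a) (2 ^ m)) ∧ Finite (SJ.ShaTorsion (tw q a) (2 ^ m)) ∧
      2 ^ (2 * g) ≤ Nat.card (SJ.QuotQ (tw q a) (2 ^ m)) ∧
      Nat.card (SJ.QuotQ (tw q a) (2 ^ m)) * Nat.card (SJ.ShaTorsion (tw q a) (2 ^ m)) ≤
        2 ^ (2 * g + e * m) := by
  have hq0 : (q : ℤ) ≠ 0 := by exact_mod_cast hq.ne_zero
  have htw := tw_inj hq0 ha
  haveI : HF (hpol (tw q a) QB) := by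
    haveI := charQB
    exact hpolHF htw _
  obtain ⟨f1, f2, f3⟩ := HJ.sha_sel htw hfin
  have hmem : ∀ S, PS (tw q a) S ∈ JacQ (tw q a) := fun S σ => by
    haveI := charQB
    exact tor_fix _ (PS_two hg S)
  let A : Type := {x // x ∈ JacQ (tw q a)}
  let ι : Type := {S : Finset (Fin (2 * g + 1)) //
    S ∈ (Finset.univ.erase (0 : Fin (2 * g + 1))).powerset}
  have hcι : Fintype.card ι = 2 ^ (2 * g) := by
    rw [Fintype.card_coe, Finset.card_powerset,
      Finset.card_erase_of_mem (Finset.mem_univ _), Finset.card_univ, Fintype.card_fin,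
      Nat.add_sub_cancel]
  let P : ι → A := fun S => ⟨PS (tw q a) S.1, hmem S.1⟩
  have hP2 : ∀ i, P i + P i = 0 := fun i => Subtype.ext (PS_two hg i.1)
  have hPinj : ∀ i j, -P i + P j ∈ mulS A 2 → i = j := by
    rintro ⟨S, hS⟩ ⟨S', hS'⟩ h
    obtain ⟨R, hR⟩ := (mem_mulQ (a := tw q a) _).1 h
    have hR' : R.1 + R.1 = -PS (tw q a) S + PS (tw q a) S' := congrArg Subtype.val hR
    have h2 : -PS (tw q a) S = PS (tw q a) S := neg_eq_of_add_eq_zero_left (PS_two hg S)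
    rw [h2] at hR'
    apply Subtype.ext
    rw [Finset.mem_powerset] at hS hS'
    exact ind_two hg ha hq hnd (fun h => (Finset.mem_erase.1 (hS h)).1 rfl)
      (fun h => (Finset.mem_erase.1 (hS' h)).1 rfl) R hR'
  have hI : ∀ n, (mulS A n).index = Nat.card (HJ.QuotQ (tw q a) n) := fun n => rfl
  have hne : (mulS A 2).index ≠ 0 := by
    rw [hI]
    haveI : Nonempty (HJ.QuotQ (tw q a) 2) := ⟨QuotientAddGroup.mk 0⟩
    exact Nat.card_pos.ne'
  obtain ⟨t, rfl⟩ : ∃ t, m = t + 1 := ⟨m - 1, by omega⟩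
  obtain ⟨i1, i2⟩ := idx_pow P hP2 hPinj hne t
  obtain ⟨j1, j2⟩ := Pool.Agent.TH344.DT.tors_pow (G := HJ.Sha (tw q a)) f1 (t + 1)
  rw [hcι] at i2
  have hcQ : Nat.card (SJ.QuotQ (tw q a) (2 ^ (t + 1))) = (mulS A (2 ^ (t + 1))).index := by
    rw [← Nat.card_congr (SJ.eQn (tw q a) (2 ^ (t + 1))), hI]
  have hcS : Nat.card (SJ.ShaTorsion (tw q a) (2 ^ (t + 1))) ≤
      Nat.card (HJ.ShaTorsion (tw q a) 2) ^ (t + 1) := by
    rw [← Nat.card_congr (SJ.eSn (tw q a) (2 ^ (t + 1)))]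
    exact j2
  have hlo : 2 ^ (2 * g) ≤ (mulS A (2 ^ (t + 1))).index := by
    haveI : Finite (A ⧸ mulS A (2 ^ (t + 1))) := Nat.finite_of_card_ne_zero i1
    rw [← hcι, ← Nat.card_eq_fintype_card]
    refine Nat.card_le_card_of_injective
      (fun i => (QuotientAddGroup.mk (P i) : A ⧸ mulS A (2 ^ (t + 1)))) ?_
    intro i j hij
    have h5 := (QuotientAddGroup.eq).1 hij
    refine hPinj i j ?_
    obtain ⟨y, hy⟩ := mem_mulS.1 h5
    refine mem_mulS.2 ⟨2 ^ t • y, ?_⟩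
    rw [smul_smul, ← hy]
    congr 1
    ring
  refine ⟨?_, ?_, by rw [hcQ]; exact hlo, ?_⟩
  · refine Nat.finite_of_card_ne_zero ?_
    rw [hcQ]
    exact i1
  · haveI : Finite (HJ.ShaTorsion (tw q a) (2 ^ (t + 1))) := j1
    exact Finite.of_equiv _ (SJ.eSn (tw q a) (2 ^ (t + 1)))
  · have h1 : Nat.card (SJ.QuotQ (tw q a) (2 ^ (t + 1))) *
        Nat.card (SJ.ShaTorsion (tw q a) (2 ^ (t + 1))) * (2 ^ (2 * g)) ^ t ≤
        (2 ^ (2 * g + e)) ^ (t + 1) := by
      calc Nat.card (SJ.QuotQ (tw q a) (2 ^ (t + 1))) *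
          Nat.card (SJ.ShaTorsion (tw q a) (2 ^ (t + 1))) * (2 ^ (2 * g)) ^ t =
          ((mulS A (2 ^ (t + 1))).index * (2 ^ (2 * g)) ^ t) *
            Nat.card (SJ.ShaTorsion (tw q a) (2 ^ (t + 1))) := by
            rw [hcQ]
            ring
        _ ≤ (mulS A 2).index ^ (t + 1) * Nat.card (HJ.ShaTorsion (tw q a) 2) ^ (t + 1) :=
            Nat.mul_le_mul i2 hcS
        _ = (Nat.card (HJ.QuotQ (tw q a) 2) * Nat.card (HJ.ShaTorsion (tw q a) 2)) ^ (t + 1) := by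
            rw [hI, mul_pow]
        _ ≤ (2 ^ (2 * g + e)) ^ (t + 1) := Nat.pow_le_pow_left (f3.trans hcard) _
    have h2 : (2 ^ (2 * g + e)) ^ (t + 1) = 2 ^ (2 * g + e * (t + 1)) * (2 ^ (2 * g)) ^ t := by
      rw [← pow_mul, ← pow_mul, ← pow_add]
      congr 1
      ring
    rw [h2] at h1
    exact Nat.le_of_mul_le_mul_right h1 (by positivity)

end Q44.JQ
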