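import Pool.Agent.Q44.JQ.StmB
import Pool.Agent.Q44.BN.Chr
import Pool.Agent.Y723.PT.Tw
import Pool.Agent.Y723.PT.Isot

/-!
# Project JQ, part III: the Selmer groups of the twists of a hyperelliptic Jacobian

`T` is a finite set of primes, `2 ∈ T`, which contains all primes dividing the differences of the roots
`a i`. The labels are the vectors indexed by `Option T`: `none` stands for `-1`, `some t` for the prime
`t`. The space `VV n` is the space of the vectors of even weight, it is the group of the 2-torsion points.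
-/

set_option autoImplicit false
set_option linter.unusedVariables false

namespace Q44.JQ

open Finset Module
open Pool.Agent.Y703.CQ (nr)
open Pool.Agent.TH344.JG (LocJ SelJ PR df)
open Pool.Agent.Y723.PT (tw dc LG)
open Pool.Agent.W313.BMX (Splits)
open Q44.BN (jv)
open Q44.TI (ch)
open scoped Classical

/-! ### Vectors of even weight -/

/-- the vectors of even weight -/
def VV (n : ℕ) : Submodule (ZMod 2) (Fin n → ZMod 2) where
  carrier := {x | ∑ i, x i = 0}
  add_mem' := fun {x y} hx hy => by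
    rw [Set.mem_ofPred_eq] at hx hy ⊢
    simp only [Pi.add_apply, sum_add_distrib]
    rw [hx, hy, add_zero]
  zero_mem' := by
    rw [Set.mem_ofPred_eq]
    simp
  smul_mem' := fun c x hx => by
    rw [Set.mem_ofPred_eq] at hx ⊢
    simp only [Pi.smul_apply]
    rw [← smul_sum, hx, smul_zero]

theorem mem_VV {n : ℕ} {x : Fin n → ZMod 2} : x ∈ VV n ↔ ∑ i, x i = 0 := Iff.rfl

/-- the form `∑ x i * y i` -/
noncomputable def omV (n : ℕ) : VV n →ₗ[ZMod 2] VV n →ₗ[ZMod 2] ZMod 2 :=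
  LinearMap.mk₂ (ZMod 2) (fun x y => ∑ i, x.1 i * y.1 i)
    (fun x x' y => by
      rw [← sum_add_distrib]
      exact sum_congr rfl fun i _ => by rw [Submodule.coe_add, Pi.add_apply, add_mul])
    (fun a x y => by
      rw [smul_eq_mul, mul_sum]
      exact sum_congr rfl fun i _ => by rw [Submodule.coe_smul, Pi.smul_apply, smul_eq_mul, mul_assoc])
    (fun x y y' => by
      rw [← sum_add_distrib]
      exact sum_congr rfl fun i _ => by rw [Submodule.coe_add, Pi.add_apply, mul_add])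
    (fun a x y => by
      rw [smul_eq_mul, mul_sum]
      exact sum_congr rfl fun i _ => by
        rw [Submodule.coe_smul, Pi.smul_apply, smul_eq_mul, mul_left_comm])

/-! ### Labels -/

/-- the generators of the group of the units outside `T` modulo squares -/
def tv {T : Finset ℕ} (o : Option T) : ℤ := o.elim (-1) fun t => ((t : ℕ) : ℤ)

/-- the integer with a given class -/
noncomputable def Uo {T : Finset ℕ} (γ : Option T → ZMod 2) : ℤ := ∏ o, if γ o = 0 then 1 else tv o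

/-- the label of a positive integer prime to `T` -/
def lbl (T : Finset ℕ) (n : ℕ) : Option T → ZMod 2 := fun o => jv (tv o) n

/-- the class of an integer whose prime factors are in `T` -/
noncomputable def ct {T : Finset ℕ} (z : ℤ) : Option T → ZMod 2 :=
  fun o => o.elim (if z < 0 then 1 else 0) fun t => ((padicValInt t z : ℕ) : ZMod 2)

/-- no prime of `T` divides `n` -/
def Cop (T : Finset ℕ) (n : ℕ) : Prop := ∀ p ∈ T, ¬ p ∣ n

/-- the value of the character `φ` at the class of `z` -/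
noncomputable def pr {T : Finset ℕ} (φ : Option T → ZMod 2) (z : ℤ) : ZMod 2 := ∑ o, φ o * ct z o

theorem ct_neg {T : Finset ℕ} {z : ℤ} (hz : z ≠ 0) (o : Option T) :
    ct (-z) o = ct z o + if o = none then 1 else 0 := by
  cases o with
  | none =>
    simp only [ct, Option.elim, if_true]
    rcases lt_trichotomy z 0 with h | h | h
    · rw [if_neg (by omega), if_pos h]
      decide
    · exact absurd h hz
    · rw [if_pos (by omega), if_neg (by omega)]
      decide
  | some t =>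
    simp only [ct, Option.elim]
    rw [if_neg (by simp), add_zero]
    congr 1
    unfold padicValInt
    rw [Int.natAbs_neg]

theorem pr_neg {T : Finset ℕ} (φ : Option T → ZMod 2) {z : ℤ} (hz : z ≠ 0) :
    pr φ (-z) = pr φ z + φ none := by
  unfold pr
  have : ∀ o, φ o * ct (-z) o = φ o * ct z o + if o = none then φ o else 0 := by
    intro o
    rw [ct_neg hz]
    by_cases h : o = none
    · rw [if_pos h, if_pos h]
      ring
    · rw [if_neg h, if_neg h]
      ring
  rw [sum_congr rfl fun o _ => this o, sum_add_distrib, Finset.sum_ite_eq' univ none φ,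
    if_pos (mem_univ _)]

/-! ### Curves -/

/-- the roots of a hyperelliptic curve; `T` contains all prime factors of the differences -/
structure Cr (T : Finset ℕ) where
  g : ℕ
  hg : 1 ≤ g
  a : Fin (2 * g + 1) → ℤ
  inj : Function.Injective a
  supp : ∀ i j, i ≠ j → ∀ p : ℕ, p.Prime → (p : ℤ) ∣ a i - a j → p ∈ T

section curve

variable {T : Finset ℕ} (c : Cr T)

/-- the space of the 2-torsion points -/
abbrev Cr.V : Type := VV (2 * c.g + 1)

/-- the components of `T φ x` -/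
noncomputable def Cr.tf (φ : Option T → ZMod 2) (x : Fin (2 * c.g + 1) → ZMod 2)
    (i : Fin (2 * c.g + 1)) : ZMod 2 :=
  ∑ j ∈ univ.erase i, pr φ (c.a i - c.a j) * (x i + x j) + φ none * x i

theorem sum_lt_add {n : ℕ} (x : Fin n → ZMod 2) :
    ∑ i, ∑ j ∈ univ.filter (fun j => i < j), (x i + x j) = ((n : ZMod 2) + 1) * ∑ i, x i := by
  have h1 : ∑ i, ∑ j ∈ univ.filter (fun j : Fin n => i < j), x j =
      ∑ j, ∑ i ∈ univ.filter (fun i : Fin n => i < j), x j := by
    refine Finset.sum_comm' fun i j => ?_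
    simp
  have h2 : ∀ i : Fin n, ((univ.filter fun j : Fin n => i < j).card : ZMod 2) +
      ((univ.filter fun j : Fin n => j < i).card : ZMod 2) = (n : ZMod 2) + 1 := by
    intro i
    have h3 : (univ.filter fun j : Fin n => i < j).card + (univ.filter fun j : Fin n => j < i).card +
        1 = n := by
      have h4 : (univ : Finset (Fin n)) = ((univ.filter fun j : Fin n => i < j) ∪
          (univ.filter fun j : Fin n => j < i)) ∪ {i} := by
        ext j
        simp only [mem_univ, mem_union, mem_filter, true_and, mem_singleton, true_iff]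
        rcases lt_trichotomy i j with h | h | h
        · exact Or.inl (Or.inl h)
        · exact Or.inr h.symm
        · exact Or.inl (Or.inr h)
      have h5 := congrArg Finset.card h4
      rw [card_univ, Fintype.card_fin, card_union_of_disjoint, card_union_of_disjoint,
        card_singleton] at h5
      · exact h5.symm
      · rw [Finset.disjoint_left]
        intro j h6 h7
        rw [mem_filter] at h6 h7
        exact absurd h6.2 h7.2.asymm
      · rw [Finset.disjoint_singleton_right, mem_union, mem_filter, mem_filter]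
        rintro (h | h)
        · exact lt_irrefl _ h.2
        · exact lt_irrefl _ h.2
    have h4 := congrArg (Nat.cast : ℕ → ZMod 2) h3
    push_cast at h4
    rw [← h4, add_assoc _ (1 : ZMod 2) 1]
    have : (1 + 1 : ZMod 2) = 0 := by decide
    rw [this, add_zero]
  simp only [sum_add_distrib, sum_const, nsmul_eq_mul]
  rw [h1]
  simp only [sum_const, nsmul_eq_mul]
  rw [← sum_add_distrib, mul_sum]
  refine sum_congr rfl fun i _ => ?_
  rw [← add_mul, h2]

theorem sum_offdiag {n : ℕ} (f : Fin n → Fin n → ZMod 2) :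
    ∑ i, ∑ j ∈ univ.erase i, f i j = ∑ i, ∑ j ∈ univ.filter (fun j => i < j), (f i j + f j i) := by
  have h1 : ∀ i : Fin n, ∑ j ∈ univ.erase i, f i j = ∑ j ∈ univ.filter (fun j => i < j), f i j +
      ∑ j ∈ univ.filter (fun j => j < i), f i j := by
    intro i
    rw [← sum_union]
    · refine sum_congr ?_ fun _ _ => rfl
      ext j
      simp only [mem_erase, mem_univ, and_true, mem_union, mem_filter, true_and]
      constructor
      · intro h
        rcases lt_or_gt_of_ne h with h | h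
        · exact Or.inr h
        · exact Or.inl h
      · rintro (h | h)
        · exact h.ne'
        · exact h.ne
    · rw [Finset.disjoint_left]
      intro j h2 h3
      rw [mem_filter] at h2 h3
      exact absurd h2.2 h3.2.asymm
  rw [sum_congr rfl fun i _ => h1 i, sum_add_distrib]
  have h2 : ∑ i, ∑ j ∈ univ.filter (fun j : Fin n => j < i), f i j =
      ∑ j, ∑ i ∈ univ.filter (fun i : Fin n => j < i), f i j := by
    refine Finset.sum_comm' fun i j => ?_
    simp
  rw [h2, ← sum_add_distrib]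
  refine sum_congr rfl fun i _ => ?_
  rw [← sum_add_distrib]

theorem Cr.tf_sum (φ : Option T → ZMod 2) {x : Fin (2 * c.g + 1) → ZMod 2} (hx : ∑ i, x i = 0) :
    ∑ i, c.tf φ x i = 0 := by
  unfold Cr.tf
  rw [sum_add_distrib, ← mul_sum, hx, mul_zero, add_zero,
    sum_offdiag (fun i j => pr φ (c.a i - c.a j) * (x i + x j))]
  have h1 : ∀ i, ∑ j ∈ univ.filter (fun j => i < j), (pr φ (c.a i - c.a j) * (x i + x j) +
      pr φ (c.a j - c.a i) * (x j + x i)) =
      φ none * ∑ j ∈ univ.filter (fun j => i < j), (x i + x j) := by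
    intro i
    rw [mul_sum]
    refine sum_congr rfl fun j hj => ?_
    have hij : i ≠ j := (mem_filter.1 hj).2.ne
    have h2 : pr φ (c.a j - c.a i) = pr φ (c.a i - c.a j) + φ none := by
      rw [← pr_neg φ (sub_ne_zero.2 fun h => hij (c.inj h))]
      congr 1
      ring
    rw [h2]
    have h3 : ∀ u v x y : ZMod 2, u * (x + y) + (u + v) * (y + x) = v * (x + y) := by decide
    exact h3 _ _ _ _
  rw [sum_congr rfl fun i _ => h1 i, ← mul_sum, sum_lt_add, hx, mul_zero, mul_zero]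

/-- the operators -/
noncomputable def Cr.TT : (Option T → ZMod 2) →ₗ[ZMod 2] c.V →ₗ[ZMod 2] c.V :=
  LinearMap.mk₂ (ZMod 2) (fun φ x => ⟨fun i => c.tf φ x.1 i, c.tf_sum φ x.2⟩)
    (fun φ φ' x => by
      refine Subtype.ext (funext fun i => ?_)
      show c.tf (φ + φ') x.1 i = c.tf φ x.1 i + c.tf φ' x.1 i
      unfold Cr.tf pr
      simp only [Pi.add_apply, add_mul, sum_add_distrib]
      ring)
    (fun a φ x => by
      refine Subtype.ext (funext fun i => ?_)
      show c.tf (a • φ) x.1 i = a • c.tf φ x.1 i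
      unfold Cr.tf pr
      simp only [Pi.smul_apply, smul_eq_mul, mul_assoc]
      rw [mul_add, mul_sum]
      congr 1
      refine sum_congr rfl fun j _ => ?_
      rw [← mul_sum, mul_assoc])
    (fun φ x y => by
      refine Subtype.ext (funext fun i => ?_)
      show c.tf φ (x.1 + y.1) i = c.tf φ x.1 i + c.tf φ y.1 i
      unfold Cr.tf
      simp only [Pi.add_apply]
      rw [mul_add, add_add_add_comm, ← sum_add_distrib]
      congr 1
      refine sum_congr rfl fun j _ => ?_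
      ring)
    (fun a φ x => by
      refine Subtype.ext (funext fun i => ?_)
      show c.tf φ (a • x.1) i = a • c.tf φ x.1 i
      unfold Cr.tf
      simp only [Pi.smul_apply, smul_eq_mul]
      rw [mul_add, mul_sum]
      congr 1
      · refine sum_congr rfl fun j _ => ?_
        ring
      · ring)

/-- the data of the curve with a subspace `𝓛` -/
noncomputable def Cr.dj (𝓛 : Submodule (ZMod 2) ((Option T → c.V) × (Option T → c.V))) :
    Dj (Option T) c.V where
  ω := omV _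
  T := c.TT
  s₀ := none
  𝓛 := 𝓛

/-- the tuple of integers attached to `(δ, z)`, `z` positive integers -/
noncomputable def Cr.dz (δ : Option T → c.V) (z : Fin (2 * c.g + 1) → ℕ) (i : Fin (2 * c.g + 1)) : ℤ :=
  Uo (fun o => (δ o).1 i) * z i

/-- the tuple of positive integers attached to `x` -/
noncomputable def Cr.zx {S : Finset ℕ} (x : S → c.V) (i : Fin (2 * c.g + 1)) : ℕ :=
  ∏ p : S, if (x p).1 i = 0 then 1 else (p : ℕ)

/-- the class `(δ, ψ)` satisfies the local condition over `K` for the twist by positive integers with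
label `ρ` -/
def Cr.Lc (K : Type) [Field K] (ρ : Option T → ZMod 2) (y : (Option T → c.V) × (Option T → c.V)) :
    Prop :=
  ∃ (n : ℕ) (z : Fin (2 * c.g + 1) → ℕ), Cop T n ∧ lbl T n = ρ ∧
    (∀ i, Cop T (z i) ∧ lbl T (z i) = fun o => (y.2 o).1 i) ∧
    LocJ K (tw n c.a) (c.dz y.1 z)

/-- the local condition at the prime `p` -/
def Cr.Lp (p : ℕ) (ρ : Option T → ZMod 2) (y : (Option T → c.V) × (Option T → c.V)) : Prop :=
  ∀ [Fact p.Prime], c.Lc ℚ_[p] ρ y

end curve

/-! ### Hilbert symbols, additively -/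

/-- the Hilbert symbol with values in the field with two elements -/
noncomputable def hv {K : Type} [Field K] (a b : K) : ZMod 2 := if Splits a b then 0 else 1

/-- the Hilbert symbol of integers at a prime -/
noncomputable def hp (p : ℕ) (a b : ℤ) : ZMod 2 :=
  if h : p.Prime then (haveI := Fact.mk h; hv (a : ℚ_[p]) (b : ℚ_[p])) else 0

/-- the quadratic form `∑_{i<j} (d_i, d_j) + ∑_i (d_i, ∏_{j ≠ i} (r_i - r_j))` -/
noncomputable def qv {K : Type} [Field K] {n : ℕ} (r d : Fin n → K) : ZMod 2 :=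
  ∑ i, ∑ j ∈ univ.filter (fun j => i < j), hv (d i) (d j) + ∑ i, hv (d i) (dc r i)

/-- the same for integers at the prime `p` -/
noncomputable def qp {n : ℕ} (p : ℕ) (a d : Fin n → ℤ) : ZMod 2 :=
  ∑ i, ∑ j ∈ univ.filter (fun j => i < j), hp p (d i) (d j) +
    ∑ i, hp p (d i) (∏ j ∈ univ.erase i, (a i - a j))

/-- JQ-BIL: the symbols are bilinear and symmetric, and vanish on squares. -/
def S_HVB : Prop := (∀ (p : ℕ) [Fact p.Prime] (a b c : ℚ_[p]), a ≠ 0 → b ≠ 0 → c ≠ 0 →
    hv (a * b) c = hv a c + hv b c ∧ hv c (a * b) = hv c a + hv c b ∧ hv a b = hv b a ∧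
    hv a (b * b) = 0) ∧
  (∀ (a b c : ℝ), a ≠ 0 → b ≠ 0 → c ≠ 0 →
    hv (a * b) c = hv a c + hv b c ∧ hv c (a * b) = hv c a + hv c b ∧ hv a b = hv b a ∧
    hv a (b * b) = 0)

/-- JQ-PF: the product formula. (Libraries: W351.HB.PF, Y723.PT.Vir `prod_formula`, Q44.BN.Hil `par`.) -/
def S_PF : Prop := ∀ a b : ℤ, a ≠ 0 → b ≠ 0 → ∀ W : Finset ℕ, (∀ p ∈ W, p.Prime) →
  (∀ p : ℕ, p.Prime → (p : ℤ) ∣ 2 * a * b → p ∈ W) → hv (a : ℝ) (b : ℝ) + ∑ p ∈ W, hp p a b = 0

/-- JQ-TAME: the tame symbol. (Compare `hs_bits` in Y723/PT/Vir.lean, and Y676.) -/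
def S_TAME : Prop := ∀ p : ℕ, p.Prime → p ≠ 2 → ∀ (i j : ℕ) (y z : ℤ), ¬ (p : ℤ) ∣ y → ¬ (p : ℤ) ∣ z →
  hp p ((p : ℤ) ^ i * y) ((p : ℤ) ^ j * z) = (i : ZMod 2) * j * ch ((-1 : ℤ) : ZMod p) +
    i * ch ((z : ℤ) : ZMod p) + j * ch ((y : ℤ) : ZMod p)

/-- JQ-QLOC: the quadratic form vanishes on the local images; this is `key2` in the proof of
`Pool.Agent.Y723.PT.isot`; the form does not change if all roots are multiplied by `m` since
`∏_{j ≠ i} m (a i - a j)` is `m ^ (n - 1)` times the old value and `n - 1` is even. -/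
def S_QLOC : Prop := (∀ (p : ℕ) [Fact p.Prime] (n : ℕ) (a d : Fin n → ℤ) (m : ℤ), Odd n → m ≠ 0 →
    Function.Injective a → (∀ i, d i ≠ 0) → LocJ ℚ_[p] (tw m a) d → qp p a d = 0) ∧
  (∀ (n : ℕ) (a d : Fin n → ℤ) (m : ℤ), Odd n → m ≠ 0 → Function.Injective a → (∀ i, d i ≠ 0) →
    LocJ ℝ (tw m a) d → qv (fun i => ((a i : ℤ) : ℝ)) (fun i => ((d i : ℤ) : ℝ)) = 0)

/-! ### Labels and local squares -/

/-- JQ-LBL: labels. (1) additivity; (2) `lbl` at a class of `T`-units is `pr`; (3) integers with the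
same label have the same classes in the local fields at `T`; (4) all labels occur for infinitely many
primes, and the primes with a given label are the primes of some residue classes modulo
`8 * ∏ p ∈ T, p`; (5) `Uo` and `ct`. (Compare `sq_of_hF` in Q44/BN/LocM.lean, `jv_mul`, `jv_mod`,
`UU_add`, Nat.forall_exists_prime_gt_and_eq_mod, quadratic reciprocity.) -/
def S_LBL : Prop := ∀ T : Finset ℕ, (∀ p ∈ T, p.Prime) → 2 ∈ T →
  (∀ n n' : ℕ, Cop T n → Cop T n' → lbl T (n * n') = lbl T n + lbl T n') ∧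
  (∀ (z : ℤ) (n : ℕ), z ≠ 0 → (∀ p : ℕ, p.Prime → (p : ℤ) ∣ z → p ∈ T) → Cop T n →
    jv z n = pr (lbl T n) z) ∧
  (∀ n n' : ℕ, Cop T n → Cop T n' → lbl T n = lbl T n' → ∀ (p : ℕ) [Fact p.Prime], p ∈ T →
    IsSquare ((n : ℚ_[p]) * (n' : ℚ_[p]))) ∧
  (∀ (φ : Option T → ZMod 2) (B : ℕ), ∃ p : ℕ, p.Prime ∧ B < p ∧ p ∉ T ∧ lbl T p = φ) ∧
  (∀ n n' : ℕ, Cop T n → n % (8 * ∏ p ∈ T, p) = n' % (8 * ∏ p ∈ T, p) → lbl T n = lbl T n') ∧
  (∀ γ : Option T → ZMod 2, Squarefree (Uo γ) ∧ (∀ p : ℕ, p.Prime → (p : ℤ) ∣ Uo γ → p ∈ T) ∧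
    ct (Uo γ) = γ) ∧
  (∀ z : ℤ, z ≠ 0 → (∀ p : ℕ, p.Prime → (p : ℤ) ∣ z → p ∈ T) → ∃ w : ℤ, w ≠ 0 ∧
    z * Uo (ct z : Option T → ZMod 2) = w ^ 2) ∧
  (∀ z z' : ℤ, z ≠ 0 → z' ≠ 0 → (ct (z * z') : Option T → ZMod 2) = ct z + ct z')

/-! ### Local conditions -/

/-- JQ-OMV: the form is alternating and nondegenerate, the operators are self-adjoint up to the sign;
dimension and triviality of the torsion. -/
def S_OMV : Prop := ∀ (T : Finset ℕ) (c : Cr T) (𝓛 : Submodule (ZMod 2) ((Option T → c.V) ×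
    (Option T → c.V))), (c.dj 𝓛).Sym ∧ (∀ x : c.V, (∀ y : c.V, omV _ x y = 0) → x = 0) ∧
  Nat.card c.V = 2 ^ (2 * c.g) ∧ finrank (ZMod 2) c.V = 2 * c.g ∧ Nontrivial c.V

/-- JQ-LOCI: the local condition does not depend on the choice of the integers. (`LG.congr`,
`LG.scale`, `S_LBL` (3).) -/
def S_LOCI : Prop := ∀ (T : Finset ℕ), (∀ p ∈ T, p.Prime) → 2 ∈ T → ∀ (c : Cr T)
  (ρ : Option T → ZMod 2) (y : (Option T → c.V) × (Option T → c.V)) (n : ℕ)
  (z : Fin (2 * c.g + 1) → ℕ), Cop T n → lbl T n = ρ →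
  (∀ i, Cop T (z i) ∧ lbl T (z i) = fun o => (y.2 o).1 i) →
  (c.Lc ℝ ρ y ↔ LocJ ℝ (tw n c.a) (c.dz y.1 z)) ∧
  ∀ (p : ℕ) [Fact p.Prime], p ∈ T → (c.Lc ℚ_[p] ρ y ↔ LocJ ℚ_[p] (tw n c.a) (c.dz y.1 z))

/-- JQ-LCL: the local conditions are linear and contain the torsion. (`LG.mul`, `LG.one`, `S_LOCI`;
torsion: `um`, `vm`, `dlt`, `um_mul` of Y723/PT/Tor.lean give the elements for one root, products by
`LG.mul`: for `x` in `V` the tuple `M i = ∏_{j, x j = 1} (a i - a j)` if `x i = 0` and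
`- n ∏_{j, x j = 0} (a i - a j)` if `x i = 1` is in the local image of the twist by `n`, its class is
`(fun t => TT (Pi.single t 1) x, fun t => ρ t • x)`.) -/
def S_LCL : Prop := ∀ (T : Finset ℕ), (∀ p ∈ T, p.Prime) → 2 ∈ T → ∀ (c : Cr T)
  (ρ : Option T → ZMod 2),
  (∀ y y', c.Lc ℝ ρ y → c.Lc ℝ ρ y' → c.Lc ℝ ρ (y + y')) ∧ c.Lc ℝ ρ 0 ∧
  (∀ x : c.V, c.Lc ℝ ρ ((fun t => c.TT (Pi.single t 1) x), (fun t => ρ t • x))) ∧
  ∀ (p : ℕ) [Fact p.Prime], p ∈ T →
    (∀ y y', c.Lc ℚ_[p] ρ y → c.Lc ℚ_[p] ρ y' → c.Lc ℚ_[p] ρ (y + y')) ∧ c.Lc ℚ_[p] ρ 0 ∧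
    (∀ x : c.V, c.Lc ℚ_[p] ρ ((fun t => c.TT (Pi.single t 1) x), (fun t => ρ t • x)))

/-- JQ-LCC: the local condition at `p` depends only on the class of `ρ` in the local field. -/
def S_LCC : Prop := ∀ (T : Finset ℕ), (∀ p ∈ T, p.Prime) → 2 ∈ T → ∀ (c : Cr T)
  (ρ : Option T → ZMod 2) (t : ℕ), Cop T t → ∀ y : (Option T → c.V) × (Option T → c.V),
  (c.Lc ℝ ρ y → c.Lc ℝ (ρ + lbl T t) y) ∧
  ∀ (p : ℕ) [Fact p.Prime], p ∈ T → IsSquare (t : ℚ_[p]) → c.Lc ℚ_[p] ρ y →
    c.Lc ℚ_[p] (ρ + lbl T t) y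

/-- JQ-ROW: the local condition at a prime `p` of the twist is the row of the system. Proof: for all `w`
in `V` the pairing of the tuple with the torsion tuple of `w` at `p` is trivial (`isot`), and by
`S_TAME` it is `ω (w, row p)`. (Or: the product of the tuple with the torsion tuple of
`x p` is unramified, and an unramified tuple in the local image is trivial.) -/
def S_ROW : Prop := ∀ (T : Finset ℕ), (∀ p ∈ T, p.Prime) → 2 ∈ T → ∀ (c : Cr T)
  (𝓛 : Submodule (ZMod 2) ((Option T → c.V) × (Option T → c.V))) (S : Finset ℕ),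
  (∀ p ∈ S, p.Prime ∧ p ∉ T) → ∀ (e : (Option T → c.V) × (S → c.V)) (p : S),
  (∀ [Fact (p : ℕ).Prime], LocJ ℚ_[(p : ℕ)] (tw ((∏ q ∈ S, q : ℕ) : ℤ) c.a) (c.dz e.1 (c.zx e.2))) →
    rowL (c.dj 𝓛) (fun p q : S => nr p q) (fun p : S => lbl T p) e p = 0

/-- JQ-DEC: the elements of the Selmer group of the twist by the product `n` of the primes of `S`.
(`LG.prod_sq` over `ℝ` and `even_dvd`: the product is a square; good reduction outside `T` and `S`.) -/
def S_DEC : Prop := ∀ (T : Finset ℕ), (∀ p ∈ T, p.Prime) → 2 ∈ T → ∀ (c : Cr T) (S : Finset ℕ),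
  (∀ p ∈ S, p.Prime ∧ p ∉ T) → ∀ d ∈ SelJ (tw ((∏ q ∈ S, q : ℕ) : ℤ) c.a),
  ∃ e : (Option T → c.V) × (S → c.V), d = c.dz e.1 (c.zx e.2)

/-- JQ-SELX: the Selmer group of the twist is at most as large as the space of the solutions, for
every subspace `𝓛` which contains the classes that satisfy all local conditions at `T`.
(`S_DEC`, `S_ROW`, `Lc` with `n = ∏ S`, `z = zx x`, whose label is `∑ p, lbl p t • x p`.) -/
def S_SELX : Prop := ∀ (T : Finset ℕ), (∀ p ∈ T, p.Prime) → 2 ∈ T → ∀ (c : Cr T)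
  (ρ : Option T → ZMod 2) (𝓛 : Submodule (ZMod 2) ((Option T → c.V) × (Option T → c.V))),
  (∀ y, c.Lc ℝ ρ y → (∀ p ∈ T, c.Lp p ρ y) → y ∈ 𝓛) → ∀ S : Finset ℕ, (∀ p ∈ S, p.Prime ∧ p ∉ T) →
  ∑ p ∈ S, lbl T p = ρ →
  (SelJ (tw ((∏ q ∈ S, q : ℕ) : ℤ) c.a)).Finite ∧
    (SelJ (tw ((∏ q ∈ S, q : ℕ) : ℤ) c.a)).ncard ≤
      Nat.card (Sel (c.dj 𝓛) (fun p q : S => nr p q) (fun p : S => lbl T p))

/-- JQ-QZ: the quadratic form of the system is the sum of the local forms at `T` and infinity. Proof: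
take distinct primes `m t` outside `T` with label `Pi.single t 1`, `P = Option T`,
`x (m t) = ψ t`; then `z' i = ∏_t m t ^ ψ t i` has the same label as `z i`, `clL = (δ, ψ)`, `S_ID` gives
`q (δ, ψ) = ∑_t ω (x (m t), row (m t))`, which is `∑_t qp (m t)` by `S_TAME` (with `u_i` the part of
`d_i` prime to `p = m t`, `w = x p`, the local form at `p` is
`ch (-1) * binom (#w) 2 + ∑_{i in w} (ch u_i + ch (∏_{j ≠ i} (a i - a j)))`), and the product formula
`S_PF` applied to all symbols in the quadratic form gives the sum over `T` and infinity, for `z'` in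
place of `z`; the local forms at `T` and infinity are the same for `z` and `z'` by `S_LBL` (3). -/
def S_QZ : Prop := ∀ (T : Finset ℕ), (∀ p ∈ T, p.Prime) → 2 ∈ T → ∀ (c : Cr T)
  (𝓛 : Submodule (ZMod 2) ((Option T → c.V) × (Option T → c.V)))
  (y : (Option T → c.V) × (Option T → c.V)) (z : Fin (2 * c.g + 1) → ℕ),
  (∀ i, Cop T (z i) ∧ lbl T (z i) = fun o => (y.2 o).1 i) →
    (c.dj 𝓛).q y = qv (fun i => ((c.a i : ℤ) : ℝ)) (fun i => ((c.dz y.1 z i : ℤ) : ℝ)) +
      ∑ p ∈ T, qp p c.a (c.dz y.1 z)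

/-! ### Nice and good primes in `T` -/

/-- the class of an integer with label `φ` modulo the odd prime `p` of `T` (reciprocity) -/
noncomputable def rc {T : Finset ℕ} (p : T) (φ : Option T → ZMod 2) : ZMod 2 :=
  φ (some p) + (if (p : ℕ) % 4 = 1 then 0 else 1) * φ none

section nice

variable {T : Finset ℕ} (c : Cr T)

/-- the class of the unit part at `p` of the component `i` -/
noncomputable def Cr.un (p : T) (y : (Option T → c.V) × (Option T → c.V)) (i : Fin (2 * c.g + 1)) :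
    ZMod 2 :=
  ∑ o ∈ univ.erase (some p), ch ((tv o : ℤ) : ZMod p) * (y.1 o).1 i + rc p (fun o => (y.2 o).1 i)

/-- the prime `p` is odd and divides no difference -/
def Cr.Good (p : ℕ) : Prop := p ≠ 2 ∧ ∀ i j, i ≠ j → ¬ (p : ℤ) ∣ c.a i - c.a j

/-- the prime `p` is odd and divides exactly one difference, exactly once: `a k.1.1 - a k.1.2` -/
def Cr.Nice (p : ℕ) (k : PR (2 * c.g + 1)) : Prop := p ≠ 2 ∧ (p : ℤ) ∣ df c.a k ∧
  ¬ (p : ℤ) ^ 2 ∣ df c.a k ∧ ∀ k', k' ≠ k → ¬ (p : ℤ) ∣ df c.a k'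

/-- the explicit local condition at a nice prime, `σ` the sign -/
def Cr.Nc (p : T) (k : PR (2 * c.g + 1)) (σ : ZMod 2)
    (y : (Option T → c.V) × (Option T → c.V)) : Prop :=
  (∀ l, l ≠ k.1.1 → l ≠ k.1.2 → (y.1 (some p)).1 l = 0) ∧
  c.un p y k.1.1 + c.un p y k.1.2 = (y.1 (some p)).1 k.1.1 * σ

/-- the sign of the nice prime in the class `ρ` -/
noncomputable def Cr.sgn (p : T) (k : PR (2 * c.g + 1)) (ρ : Option T → ZMod 2) : ZMod 2 :=
  rc p ρ + ch ((Pool.Agent.TH344.JG.sJ c.a k : ℤ) : ZMod p)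

end nice

/-- JQ-GOODL: good primes. (JG.Nice, `S_GOODJ` proved in Y723/JG; `S_TAME`.) -/
def S_GOODL : Prop := ∀ (T : Finset ℕ), (∀ p ∈ T, p.Prime) → 2 ∈ T → ∀ (c : Cr T) (p : T),
  c.Good p → (∀ (ρ : Option T → ZMod 2) (y : (Option T → c.V) × (Option T → c.V)),
    c.Lp p ρ y → y.1 (some p) = 0) ∧
  ∀ (y : (Option T → c.V) × (Option T → c.V)), y.1 (some p) = 0 →
    ∀ z : Fin (2 * c.g + 1) → ℕ, (∀ i, Cop T (z i) ∧ lbl T (z i) = fun o => (y.2 o).1 i) →
      qp p c.a (c.dz y.1 z) = 0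

/-- JQ-NICEL: nice primes. (`S_NICEJ` proved in Y723/JG/Nice2; `S_TAME`; reciprocity: the class modulo
`p` of an integer `m` prime to `T` is `rc p (lbl T m)`.) -/
def S_NICEL : Prop := ∀ (T : Finset ℕ), (∀ p ∈ T, p.Prime) → 2 ∈ T → ∀ (c : Cr T) (p : T)
  (k : PR (2 * c.g + 1)), c.Nice p k →
  (∀ (ρ : Option T → ZMod 2) (y : (Option T → c.V) × (Option T → c.V)),
    c.Lp p ρ y → c.Nc p k (c.sgn p k ρ) y) ∧
  ∀ (y : (Option T → c.V) × (Option T → c.V)), (∀ l, l ≠ k.1.1 → l ≠ k.1.2 →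
    (y.1 (some p)).1 l = 0) →
    ∀ z : Fin (2 * c.g + 1) → ℕ, (∀ i, Cop T (z i) ∧ lbl T (z i) = fun o => (y.2 o).1 i) →
      qp p c.a (c.dz y.1 z) =
        if (y.1 (some p)).1 k.1.1 = 0 then c.un p y k.1.1 + c.un p y k.1.2 else 0

/-- JQ-BEX: classes which are trivial at infinity and at the primes of `T` different from the odd prime
`p`, with valuation `e_i + e_j` at `p` and given sum of the unit parts. Take `d_i = p * m`,
`d_j = p * m'`, `d_l = m''` for one third index `l`, all other components equal to one, where `m`,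
`m'`, `m''` are positive, prime to `T`, `lbl m' = lbl m + lbl m''`, `p m` and `m''` are squares in the
fields `ℚ_q`, `q ∈ T`, `q ≠ p`, and `m''` is a square modulo `p` if and only if `σ = 0` (Chinese
remainder theorem; for `σ = 0` take `m'' = 1`, `m' = m`; in general `m' = m * m''`). The local
conditions hold since all components are squares there (`LG.one`, `LG.congr`). -/
def S_BEX : Prop := ∀ (T : Finset ℕ), (∀ p ∈ T, p.Prime) → 2 ∈ T → ∀ (c : Cr T) (p : T)
  (k : PR (2 * c.g + 1)), (p : ℕ) ≠ 2 → ∀ σ : ZMod 2,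
  ∃ y : (Option T → c.V) × (Option T → c.V), (∀ ρ, c.Lc ℝ ρ y) ∧
    (∀ q ∈ T, q ≠ p → ∀ ρ, c.Lp q ρ y) ∧ (∀ q : T, q ≠ p → y.1 (some q) = 0) ∧
    (∀ l, (y.1 (some p)).1 l = if l = k.1.1 ∨ l = k.1.2 then 1 else 0) ∧
    c.un p y k.1.1 + c.un p y k.1.2 = σ

/-- JQ-FLIP: linear algebra of the quadratic form `q` on `(s → V) × (s → V)`. Given a singular
subspace `R` and two singular vectors `b 0`, `b 1` orthogonal to `R` and not orthogonal to each other
there are maximal singular subspaces `𝓛 0 ∋ b 0` and `𝓛 1 ∋ b 1` which contain `R` with intersection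
of codimension one; the dimensions of the intersections with the maximal singular subspace of the
`(γ, 0)` have different parity. Proof: the orthogonal space of `b 0`, `b 1` is nondegenerate and
contains a singular subspace of half its dimension (the projection of a suitable subspace), take a
maximal singular subspace `R'` containing `R` in it (for instance
`R' = R + (R^⊥ ∩ G')`, `G'` maximal singular there), `𝓛 σ = R' + ⟨b σ⟩`. Parity: for `C = 𝓛 0 ∩ 𝓛 1`
the image of `G = {(γ, 0)}` in `C^⊥ / C` (a hyperbolic plane with exactly two singular lines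
`𝓛 0 / C`, `𝓛 1 / C`) is a singular line. -/
def S_FLIP : Prop := ∀ (s V : Type) [Fintype s] [AddCommGroup V] [Module (ZMod 2) V] [Finite V]
  (D : Dj s V), D.Sym → (∀ x, (∀ y, D.ω x y = 0) → x = 0) →
  ∀ (R : Submodule (ZMod 2) ((s → V) × (s → V))) (b : ZMod 2 → (s → V) × (s → V)),
  (∀ y ∈ R, D.q y = 0) → (∀ σ, D.q (b σ) = 0) → (∀ σ, ∀ y ∈ R, D.q (y + b σ) = 0) →
  D.q (b 0 + b 1) = 1 →
  ∃ 𝓛 : ZMod 2 → Submodule (ZMod 2) ((s → V) × (s → V)), ∀ σ, R ≤ 𝓛 σ ∧ b σ ∈ 𝓛 σ ∧
    Nat.card (𝓛 σ) = Nat.card V ^ Fintype.card s ∧ (∀ y ∈ 𝓛 σ, D.q y = 0) ∧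
    ((finrank (ZMod 2) (({ D with 𝓛 := 𝓛 (σ + 1) } : Dj s V).pm) : ℕ) : ZMod 2) =
      ((finrank (ZMod 2) (({ D with 𝓛 := 𝓛 σ } : Dj s V).pm) : ℕ) : ZMod 2) + 1

/-! ### The package for one curve -/

/-- JQ-ARX: for a curve with a nice prime `p₁` and a set `Q` of good primes, all in `T`, there are
subspaces `𝓛 ρ` with all the required properties, and the parity changes with the class at `p₁` and
does not depend on the class at the primes of `Q`. Proof: let `R ρ` be the space of the `y` with the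
local conditions at infinity and at the primes of `T` different from `p₁` and from those of `Q`, with
`y.1 (some q) = 0` for `q` in `Q` and with `Nc p₁ k 0`, `y.1 (some p₁) = 0` at `p₁`; let `b σ` be the
vectors of `S_BEX`; `𝓛 ρ = (S_FLIP (R ρ) b).choose (sgn p₁ k ρ)`. Since `R ρ` depends only on the
classes of `ρ` at the other places, `R (ρ + lbl t) = R ρ` for the `t` in the statement (`S_LCC`). -/
def S_ARX : Prop := ∀ (T : Finset ℕ), (∀ p ∈ T, p.Prime) → 2 ∈ T → ∀ (c : Cr T) (p₁ : T)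
  (k : PR (2 * c.g + 1)) (Q : Finset T), c.Nice p₁ k → (∀ q ∈ Q, c.Good q) →
  ∃ 𝓛 : (Option T → ZMod 2) → Submodule (ZMod 2) ((Option T → c.V) × (Option T → c.V)),
    (∀ ρ, (c.dj (𝓛 ρ)).Ok ρ) ∧
    (∀ ρ, ∀ S : Finset ℕ, (∀ p ∈ S, p.Prime ∧ p ∉ T) → ∑ p ∈ S, lbl T p = ρ →
      (SelJ (tw ((∏ q ∈ S, q : ℕ) : ℤ) c.a)).Finite ∧
      (SelJ (tw ((∏ q ∈ S, q : ℕ) : ℤ) c.a)).ncard ≤
        Nat.card (Sel (c.dj (𝓛 ρ)) (fun p q : S => nr p q) (fun p : S => lbl T p))) ∧
    ∀ (ρ : Option T → ZMod 2) (q : T), (q = p₁ ∨ q ∈ Q) → ∀ t : ℕ, Cop T t →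
      (∀ (p : ℕ) [Fact p.Prime], p ∈ T → p ≠ q → IsSquare (t : ℚ_[p])) →
      ¬ IsSquare ((t : ℕ) : ZMod q) →
      ((finrank (ZMod 2) (c.dj (𝓛 (ρ + lbl T t))).pm : ℕ) : ZMod 2) =
        ((finrank (ZMod 2) (c.dj (𝓛 ρ)).pm : ℕ) : ZMod 2) + if q = p₁ then 1 else 0

/-- the curve with roots `u * a i` -/
def Cr.mul {T : Finset ℕ} (c : Cr T) (u : ℤ) (hu : u ≠ 0)
    (hs : ∀ p : ℕ, p.Prime → (p : ℤ) ∣ u → p ∈ T) : Cr T where
  g := c.g
  hg := c.hg
  a := fun i => u * c.a i
  inj := fun i j h => c.inj (mul_left_cancel₀ hu h)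
  supp := fun i j hij p hp hd => by
    rw [← mul_sub] at hd
    rcases (Nat.prime_iff_prime_int.1 hp).dvd_or_dvd hd with h | h
    · exact hs p hp h
    · exact c.supp i j hij p hp h

/-- JQ-ADJ: if the classes of `-1` and of all differences of all curves are independent, then the
operators with positive labels generate everything, also after a common twist by `u`. Proof: for
every `k₀` and `i < j` there is `φ` with `φ none = 0`, `pr φ (a k₀ i - a k₀ j) = 1` and `pr φ` zero at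
all other differences; then `T φ` is `x ↦ (x i + x j) (e_i + e_j)` on the factor `k₀` and zero on
the others, up to the scalar `pr φ u` common to all factors; these operators and the scalars generate
`∏ End`. -/
def S_ADJH : Prop := ∀ (T : Finset ℕ), (∀ p ∈ T, p.Prime) → 2 ∈ T → ∀ (κ : Type) [Fintype κ]
  (c : κ → Cr T) (u : ℤ) (hu : u ≠ 0) (hs : ∀ p : ℕ, p.Prime → (p : ℤ) ∣ u → p ∈ T),
  (∀ (w : (Σ k, PR (2 * (c k).g + 1)) → ZMod 2) (w₀ : ZMod 2),
    (∑ x, w x • (ct (df (c x.1).a x.2) : Option T → ZMod 2)) + w₀ • (ct (-1) : Option T → ZMod 2) = 0 →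
      w = 0) →
  ∀ 𝓛 : ∀ k, Submodule (ZMod 2) ((Option T → (c k).V) × (Option T → (c k).V)),
      Adj (V := fun k => (c k).V) (none : Option T) fun k => ((c k).mul u hu hs).dj (𝓛 k)

end Q44.JQ
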