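import Pool.Agent.Q44.JQ.Rx

/-!
# The joint law of the dimensions over squarefree integers with a given label
-/

set_option autoImplicit false
set_option linter.unusedSectionVars false

open scoped Classical Topology

namespace Q44.JQ

open Finset Module Filter
open Pool.Agent.Y703.CQ (nr prs ext)
open Q44.BM (Fam RC GT Rch lab card_im nr_rec vm HM hm_cls Ok)
open Q44.BP (BX NdK)
open Q44.BN (jv jv_one jv_neg_one)

variable {T : Finset ℕ}

/-- the dimension of the space of the solutions of the system of a set of primes -/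
noncomputable def dmS {V : Type} [AddCommGroup V] [Module (ZMod 2) V] (D : Dj (Option T) V)
    (S : Finset ℕ) : ℕ :=
  finrank (ZMod 2) (Sel D (fun a b : S => nr a b) (fun a : S => lbl T a))

/-- squarefree integers prime to `T` with a given label -/
def Dn (T : Finset ℕ) (ρ : Option T → ZMod 2) (n : ℕ) : Prop := Squarefree n ∧ Cop T n ∧ lbl T n = ρ

variable (L : LB T)

include L

theorem box_T (hLAJ : S_LAJ) {κ : Type} [Fintype κ] {V : κ → Type} [∀ k, AddCommGroup (V k)]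
    [∀ k, Module (ZMod 2) (V k)] [∀ k, Finite (V k)] [∀ k, Nontrivial (V k)]
    {ρ : Option T → ZMod 2} {D : ∀ k, Dj (Option T) (V k)} (hs : ∀ k, (D k).s₀ = none)
    (hO : ∀ k, (D k).Ok ρ) (hA : Adj none D) (r : κ → ℕ) (Gd : Finset ℕ → Prop)
    (hGd : ∀ S, Gd S ↔ ∀ k, dmS (D k) S = finrank (ZMod 2) (V k) + r k) (ε : ℝ) (hε : 0 < ε) :
    ∃ R, BX (RT T L.toTS).Φ (NdK (RT T L.toTS).Φ (clT T) R) (GT (lbl T) ρ) Gd
      (∏ k, lawc ((finrank (ZMod 2) (D k).pm : ℕ) : ZMod 2) (r k)) ε (Fintype.card (Fin (MT T))) := by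
  obtain ⟨R, hR1, hR⟩ := hLAJ (Option T) κ V none ρ D hs hO hA r ε hε
  refine ⟨R, ?_⟩
  refine box_gen (fun p hp => (RT_A L.toTS).2 ((RT_P L.toTS).1 hp)) ρ L.lbx hε ?_
  intro ι _ _ S₀ p₀ hS₀ hP₀ hp₀ hd₀ hN hG
  have hok := bkT_ok L hS₀ hP₀ hp₀ hd₀ hN hG
  obtain ⟨Q, hQ⟩ : ∃ Q : (prs (univ : Finset ι) → ZMod 2) → Prop, ∀ α, Q α ↔
      ∀ k, finrank (ZMod 2) (Sel (D k) ((bkT T S₀ p₀).N none α) (bkT T S₀ p₀).h) =
        finrank (ZMod 2) (V k) + r k := ⟨_, fun _ => Iff.rfl⟩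
  refine ⟨Q, ?_, ?_⟩
  · have h := hR S₀ ι (bkT T S₀ p₀) hok
    refine le_trans (le_of_eq ?_) h
    have e : (univ.filter fun α => Q α) = (univ.filter fun α : prs (univ : Finset ι) → ZMod 2 =>
        ∀ k, finrank (ZMod 2) (Sel (D k) ((bkT T S₀ p₀).N none α) (bkT T S₀ p₀).h) =
        finrank (ZMod 2) (V k) + r k) := by
      ext α
      rw [mem_filter, mem_filter, hQ]
    rw [e]
  · intro p hP hp hd he
    have hl : ∀ i, lbl T (p₀ i) = lbl T (p i) := fun i =>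
      (L.lbx _ _ (hP₀ i) (hP i) (congrArg (fun t => t.2.2) (he i))).2.2
    have hb := bkT_lab hl he
    rw [hQ, hGd]
    refine forall_congr' fun k => ?_
    unfold dmS
    rw [sel_block L (D k) hP hp hd, hb]

theorem law_sets (hLAJ : S_LAJ) {κ : Type} [Fintype κ] {V : κ → Type} [∀ k, AddCommGroup (V k)]
    [∀ k, Module (ZMod 2) (V k)] [∀ k, Finite (V k)] [∀ k, Nontrivial (V k)]
    {ρ : Option T → ZMod 2} {D : ∀ k, Dj (Option T) (V k)} (hs : ∀ k, (D k).s₀ = none)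
    (hO : ∀ k, (D k).Ok ρ) (hA : Adj none D) (r : κ → ℕ) (G1 Gd : Finset ℕ → Prop)
    (hG1 : G1 = GT (lbl T) ρ)
    (hGd : ∀ S, Gd S ↔ ∀ k, dmS (D k) S = finrank (ZMod 2) (V k) + r k) :
    Tendsto (fun X : ℕ => (((Q44.BM.SS (RT T L.toTS).Φ X).filter fun S => G1 S ∧ Gd S).card : ℝ) /
      (((Q44.BM.SS (RT T L.toTS).Φ X).filter G1).card : ℝ)) atTop
      (𝓝 (∏ k, lawc ((finrank (ZMod 2) (D k).pm : ℕ) : ZMod 2) (r k))) := by
  have hΦ := (RT T L.toTS).ok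
  have hpos := Q44.BM.pos_prop (F := Option T → ZMod 2) (fun x => CharTwo.add_self_eq_zero x) hΦ
    (lbl T) (L.rch ρ)
  have hbx := fun ε hε => box_T L hLAJ hs hO hA r Gd hGd ε hε
  rw [← hG1] at hbx
  have hpos' : ∃ (η : ℝ) (X₀ : ℕ), 0 < η ∧ ∀ X : ℕ, X₀ ≤ X →
      η * ((Q44.BM.SS (RT T L.toTS).Φ X).card : ℝ) ≤
        (((Q44.BM.SS (RT T L.toTS).Φ X).filter G1).card : ℝ) := by
    subst hG1
    exact hpos
  exact Q44.BM.law_pos hΦ hpos' (Q44.BP.t_DQ hΦ (clT T)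
    (fun φ p hp => (RT_P L.toTS).2 ⟨hp.1, hp.2.1⟩) L.hm G1 Gd _ (Fintype.card (Fin (MT T))) hbx)

theorem LB.lbl_prod (S : Finset ℕ) (hS : ∀ p ∈ S, Cop T p) :
    Cop T (∏ p ∈ S, p) ∧ lbl T (∏ p ∈ S, p) = ∑ p ∈ S, lbl T p := by
  induction S using Finset.induction_on with
  | empty =>
    rw [prod_empty, sum_empty]
    exact ⟨fun p hp hd => (L.pr p hp).one_lt.ne' (Nat.dvd_one.1 hd), lbl_one⟩
  | insert a S ha ih =>
    obtain ⟨h1, h2⟩ := ih fun p hp => hS p (mem_insert_of_mem hp)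
    have h3 := hS a (mem_insert_self _ _)
    rw [prod_insert ha, sum_insert ha]
    refine ⟨fun p hp hd => ?_, ?_⟩
    · rcases (Nat.Prime.dvd_mul (L.pr p hp)).1 hd with h | h
      · exact h3 p hp h
      · exact h1 p hp h
    · rw [L.add _ _ h3 h1, h2]

theorem LB.Dn_iff {ρ : Option T → ZMod 2} {n : ℕ} : Dn T ρ n ↔
    (Squarefree n ∧ ∀ p ∈ n.primeFactors, (RT T L.toTS).Φ.P p) ∧ GT (lbl T) ρ n.primeFactors := by
  unfold Dn
  rw [and_assoc]
  refine and_congr_right fun hs => ?_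
  have h0 : n ≠ 0 := hs.ne_zero
  have h1 : Cop T n ↔ ∀ p ∈ n.primeFactors, (RT T L.toTS).Φ.P p := by
    constructor
    · intro h p hp
      refine (RT_P L.toTS).2 ⟨Nat.prime_of_mem_primeFactors hp, fun hT => ?_⟩
      exact h p hT (Nat.dvd_of_mem_primeFactors hp)
    · intro h p hp hd
      exact ((RT_P L.toTS).1 (h p (Nat.mem_primeFactors.2 ⟨L.pr p hp, hd, h0⟩))).2 hp
  rw [← h1]
  refine and_congr_right fun hc => ?_
  have h2 := L.lbl_prod n.primeFactors fun p hp => by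
    have h3 := (RT_P L.toTS).1 (h1.1 hc p hp)
    exact (L.toTS.prime_cop h3.1).2 h3.2
  rw [Nat.prod_primeFactors_of_squarefree hs] at h2
  unfold GT
  rw [h2.2]

theorem law_nat (hLAJ : S_LAJ) {κ : Type} [Fintype κ] {V : κ → Type} [∀ k, AddCommGroup (V k)]
    [∀ k, Module (ZMod 2) (V k)] [∀ k, Finite (V k)] [∀ k, Nontrivial (V k)]
    {ρ : Option T → ZMod 2} {D : ∀ k, Dj (Option T) (V k)} (hs : ∀ k, (D k).s₀ = none)
    (hO : ∀ k, (D k).Ok ρ) (hA : Adj none D) (r : κ → ℕ) (Q : ℕ → Prop)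
    (hQ : ∀ n, Q n ↔ ∀ k, dmS (D k) n.primeFactors = finrank (ZMod 2) (V k) + r k) :
    Tendsto (fun X : ℕ => (((Icc 1 X).filter fun n => Dn T ρ n ∧ Q n).card : ℝ) /
      (((Icc 1 X).filter fun n => Dn T ρ n).card : ℝ)) atTop
      (𝓝 (∏ k, lawc ((finrank (ZMod 2) (D k).pm : ℕ) : ZMod 2) (r k))) := by
  obtain ⟨G1, hG1⟩ : ∃ G1 : Finset ℕ → Prop, G1 = GT (lbl T) ρ := ⟨_, rfl⟩
  obtain ⟨Gd, hGd⟩ : ∃ Gd : Finset ℕ → Prop, ∀ S, Gd S ↔
    ∀ k, dmS (D k) S = finrank (ZMod 2) (V k) + r k := ⟨_, fun _ => Iff.rfl⟩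
  refine (law_sets L hLAJ hs hO hA r G1 Gd hG1 hGd).congr fun X => ?_
  have e1 := Q44.BN.card_nat (RT T L.toTS).Φ X (fun S => G1 S ∧ Gd S)
    (iQ := fun S => instDecidableAnd)
  have e2 := Q44.BN.card_nat (RT T L.toTS).Φ X G1 (iQ := fun S => Classical.propDecidable _)
  have e1' : (((Q44.BM.SS (RT T L.toTS).Φ X).filter fun S => G1 S ∧ Gd S).card : ℝ) =
      (((Icc 1 X).filter fun n => Dn T ρ n ∧ Q n).card : ℝ) := by
    rw [← e1]
    congr 2
    refine Finset.filter_congr fun n _ => ?_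
    rw [L.Dn_iff, hQ, hG1, hGd]
    exact and_assoc.symm
  have e2' : (((Q44.BM.SS (RT T L.toTS).Φ X).filter G1).card : ℝ) =
      (((Icc 1 X).filter fun n => Dn T ρ n).card : ℝ) := by
    rw [← e2]
    congr 2
    refine Finset.filter_congr fun n _ => ?_
    rw [L.Dn_iff, hG1]
  rw [e1', e2']

end Q44.JQ
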