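import Pool.Agent.Q44.JQ.StmB

/-!
# Averages over classes with independent parities
-/

set_option autoImplicit false

open scoped Classical

namespace Q44.JQ

open Finset

theorem zmod2_cases (a : ZMod 2) : a = 0 ∨ a = 1 := by
  revert a
  decide

theorem avg {κ Ω : Type} [Fintype κ] [Fintype Ω] (w : Ω → ℝ) (π : κ → Ω → ZMod 2)
    (τ : κ → Ω ≃ Ω) (hw : ∀ k x, w (τ k x) = w x)
    (hπ : ∀ k l x, w x ≠ 0 → π l (τ k x) = π l x + if l = k then 1 else 0)
    (F : κ → ZMod 2 → ℝ) :
    ∑ x, w x * ∏ k, F k (π k x) = (∏ k, ((F k 0 + F k 1) / 2)) * ∑ x, w x := by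
  have key : ∀ s : Finset κ, ∑ x, w x * ∏ k ∈ s, F k (π k x) =
      (∏ k ∈ s, ((F k 0 + F k 1) / 2)) * ∑ x, w x := by
    intro s
    induction s using Finset.induction_on with
    | empty => simp
    | insert a s ha ih =>
      have h1 : ∑ x, w x * ∏ k ∈ insert a s, F k (π k x) =
          ∑ x, w x * (F a (π a x + 1) * ∏ k ∈ s, F k (π k x)) := by
        rw [← Equiv.sum_comp (τ a)]
        refine sum_congr rfl fun x _ => ?_
        rw [hw, prod_insert ha]
        by_cases hx : w x = 0
        · rw [hx, zero_mul, zero_mul]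
        · rw [hπ a a x hx, if_pos rfl]
          congr 2
          refine prod_congr rfl fun k hk => ?_
          rw [hπ a k x hx, if_neg (fun h : k = a => ha (h ▸ hk)), add_zero]
      have h2 : ∑ x, w x * ∏ k ∈ insert a s, F k (π k x) =
          ∑ x, w x * (F a (π a x) * ∏ k ∈ s, F k (π k x)) :=
        sum_congr rfl fun x _ => by rw [prod_insert ha]
      have h3 : ∀ c : ZMod 2, F a c + F a (c + 1) = F a 0 + F a 1 := by
        intro c
        rcases zmod2_cases c with rfl | rfl
        · rw [zero_add]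
        · rw [show (1 : ZMod 2) + 1 = 0 by decide, add_comm]
      have h4 : 2 * ∑ x, w x * ∏ k ∈ insert a s, F k (π k x) =
          (F a 0 + F a 1) * ∑ x, w x * ∏ k ∈ s, F k (π k x) := by
        rw [two_mul]
        nth_rw 1 [h2]
        rw [h1, ← sum_add_distrib, mul_sum]
        refine sum_congr rfl fun x _ => ?_
        rw [← h3 (π a x)]
        ring
      rw [ih] at h4
      rw [prod_insert ha]
      linarith
  exact key univ

theorem lawc_avg (r : ℕ) : (lawc 0 r + lawc 1 r) / 2 = Pool.Agent.Q269.SL.law2 r := by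
  unfold lawc
  rcases zmod2_cases ((r : ℕ) : ZMod 2) with h | h
  · rw [if_pos h, if_neg (by rw [h]; decide)]
    ring
  · rw [if_neg (by rw [h]; decide), if_pos h]
    ring

end Q44.JQ
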