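import Mathlib

/-!
# Project JQ: squarefree numbers in residue classes
-/

set_option autoImplicit false

open scoped Classical Topology
open Finset Filter

namespace Q44.JQ

/-- JQ-SQM: the density of the squarefree numbers in a residue class prime to the modulus is positive and
does not depend on the class. Proof: `∑_{d prime to m} μ d * #{n ≤ X / d ^ 2, n = a d ^ (-2) mod m}`;
the terms with `d > Y` contribute at most `∑_{d > Y} X / d ^ 2 ≤ X / Y`, the others are
`X / (m d ^ 2) + O(1)`; the density is `(1 / m) ∑_{d prime to m} μ d / d ^ 2 > 0` (for instance because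
`∑_{d ≥ 2} 1 / d ^ 2 < 1`; only one bound for a positive limit is needed). -/
def S_SQM : Prop := ∀ m : ℕ, 0 < m → ∃ δ : ℝ, 0 < δ ∧ ∀ a : ℕ, a.Coprime m →
  Tendsto (fun X : ℕ => (((Icc 1 X).filter fun n => Squarefree n ∧ n % m = a % m).card : ℝ) / X)
    atTop (𝓝 δ)

end Q44.JQ
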