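import Pool.Agent.Q44.JQ.Asy
import Pool.Agent.Q44.JQ.StmD

/-!
# All squarefree integers: sign, part supported on `T`, positive part prime to `T`
-/

set_option autoImplicit false
set_option linter.unusedSectionVars false

open scoped Classical Topology

namespace Q44.JQ

open Finset Module Filter

variable {T : Finset ℕ}

/-- the class of a squarefree integer -/
abbrev Cl (T : Finset ℕ) : Type := (Option T → ZMod 2) × (Option T → ZMod 2)

/-- the positive part prime to `T` -/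
noncomputable def nD (T : Finset ℕ) (D : ℤ) : ℕ := (D / Uo (ct D : Option T → ZMod 2)).natAbs

/-- the class -/
noncomputable def clD (T : Finset ℕ) (D : ℤ) : Cl T := (ct D, lbl T (nD T D))

theorem val_eq {p : ℕ} (hp : p.Prime) {x y : ℤ} (hx : Squarefree x) (hy : Squarefree y)
    (h : ((padicValInt p x : ℕ) : ZMod 2) = ((padicValInt p y : ℕ) : ZMod 2)) :
    ((p : ℤ) ∣ x ↔ (p : ℤ) ∣ y) := by
  have key : ∀ z : ℤ, Squarefree z → padicValInt p z ≤ 1 ∧ (1 ≤ padicValInt p z ↔ (p : ℤ) ∣ z) := by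
    intro z hz
    haveI := Fact.mk hp
    have h1 : padicValInt p z ≤ 1 := by
      by_contra hc
      push Not at hc
      have h2 : ((p : ℤ)) ^ 2 ∣ z := (padicValInt_dvd_iff 2 z).2 (Or.inr hc)
      rw [pow_two] at h2
      have h3 := hz _ h2
      have h4 : (p : ℤ).natAbs = 1 := Int.isUnit_iff_natAbs_eq.1 h3
      rw [Int.natAbs_natCast] at h4
      exact hp.one_lt.ne' h4
    refine ⟨h1, ?_⟩
    have h2 := padicValInt_dvd_iff (p := p) 1 z
    rw [pow_one] at h2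
    rw [h2]
    exact ⟨Or.inr, fun h => h.resolve_left hz.ne_zero⟩
  obtain ⟨hx1, hx2⟩ := key x hx
  obtain ⟨hy1, hy2⟩ := key y hy
  rw [← hx2, ← hy2]
  have h3 : padicValInt p x = padicValInt p y := by
    have h4 : ∀ a b : ℕ, a ≤ 1 → b ≤ 1 → (a : ZMod 2) = (b : ZMod 2) → a = b := by
      intro a b ha hb hab
      interval_cases a <;> interval_cases b
      · rfl
      · exact absurd hab (by decide)
      · exact absurd hab (by decide)
      · rfl
    exact h4 _ _ hx1 hy1 h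
  rw [h3]

theorem ct_nat {n : ℕ} (hn : Cop T n) : (ct (n : ℤ) : Option T → ZMod 2) = 0 := by
  funext o
  cases o with
  | none =>
    show (if ((n : ℕ) : ℤ) < 0 then (1 : ZMod 2) else 0) = 0
    rw [if_neg (by omega)]
  | some t =>
    show ((padicValInt t ((n : ℕ) : ℤ) : ℕ) : ZMod 2) = 0
    rw [padicValInt.of_nat, padicValNat.eq_zero_of_not_dvd (hn t t.2), Nat.cast_zero]

theorem ct_none {z : ℤ} : (ct z : Option T → ZMod 2) none = if z < 0 then 1 else 0 := rfl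

theorem ct_some {z : ℤ} (t : T) : (ct z : Option T → ZMod 2) (some t) =
    ((padicValInt t z : ℕ) : ZMod 2) := rfl

variable (L : LB T)

include L

theorem LB.U0 (γ : Option T → ZMod 2) : Uo γ ≠ 0 := (L.uo γ).1.ne_zero

theorem LB.Udvd {D : ℤ} (hD : Squarefree D) (γ : Option T → ZMod 2)
    (h : ∀ t : T, ((t : ℕ) : ℤ) ∣ Uo γ → ((t : ℕ) : ℤ) ∣ D) : Uo γ ∣ D := by
  obtain ⟨h1, h2, -⟩ := L.uo γ
  have h4 : (Uo γ).natAbs ∣ D.natAbs := by
    rw [← Nat.prod_primeFactors_of_squarefree (Int.squarefree_natAbs.2 h1)]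
    refine Finset.prod_primes_dvd _ (fun p hp => (Nat.prime_of_mem_primeFactors hp).prime)
      fun p hp => ?_
    have hp' := Nat.prime_of_mem_primeFactors hp
    have h5 : (p : ℤ) ∣ Uo γ := Int.natCast_dvd.2 (Nat.dvd_of_mem_primeFactors hp)
    exact Int.natCast_dvd.1 (h ⟨p, h2 p hp' h5⟩ h5)
  exact Int.natAbs_dvd_natAbs.1 h4

theorem LB.dec {D : ℤ} (hD : Squarefree D) : D = Uo (ct D : Option T → ZMod 2) * (nD T D : ℕ) ∧
    Squarefree (nD T D) ∧ Cop T (nD T D) := by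
  set γ : Option T → ZMod 2 := ct D with hγ
  obtain ⟨h1, h2, h3⟩ := L.uo γ
  have h0 := L.U0 γ
  have hval : ∀ t : T, (((t : ℕ) : ℤ) ∣ Uo γ ↔ ((t : ℕ) : ℤ) ∣ D) := by
    intro t
    refine val_eq (L.pr t t.2) h1 hD ?_
    rw [← ct_some, ← ct_some, h3]
  obtain ⟨w, hw⟩ := L.Udvd hD γ fun t ht => (hval t).1 ht
  have hD0 := hD.ne_zero
  have hw0 : 0 < w := by
    have h4 : (ct (Uo γ) : Option T → ZMod 2) none = (ct D : Option T → ZMod 2) none := by
      rw [h3]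
    rw [ct_none, ct_none] at h4
    have hwn : w ≠ 0 := by
      rintro rfl
      rw [mul_zero] at hw
      exact hD0 hw
    rcases lt_trichotomy w 0 with h | h | h
    · exfalso
      rcases lt_or_gt_of_ne h0 with h5 | h5
      · have h6 : 0 < D := by
          rw [hw]
          exact mul_pos_of_neg_of_neg h5 h
        rw [if_pos h5, if_neg (by omega)] at h4
        exact absurd h4 (by decide)
      · have h6 : D < 0 := by
          rw [hw]
          exact mul_neg_of_pos_of_neg h5 h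
        rw [if_pos h6, if_neg (by omega)] at h4
        exact absurd h4 (by decide)
    · exact absurd h hwn
    · exact h
  have hn : nD T D = w.natAbs := by
    unfold nD
    rw [← hγ]
    congr 1
    rw [hw, Int.mul_ediv_cancel_left _ h0]
  have hnw : ((nD T D : ℕ) : ℤ) = w := by
    rw [hn, Int.natCast_natAbs, abs_of_pos hw0]
  refine ⟨by rw [hnw, ← hw], ?_, ?_⟩
  · rw [hn]
    exact Int.squarefree_natAbs.2 (hD.squarefree_of_dvd (Dvd.intro_left _ hw.symm))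
  · intro p hp hd
    have hdw : (p : ℤ) ∣ w := by
      rw [← hnw]
      exact Int.natCast_dvd_natCast.2 hd
    have hdD : (p : ℤ) ∣ D := by
      rw [hw]
      exact hdw.mul_left _
    have hdU : (p : ℤ) ∣ Uo γ := (hval ⟨p, hp⟩).2 hdD
    have h6 : (p : ℤ) * p ∣ D := by
      rw [hw]
      exact mul_dvd_mul hdU hdw
    have h7 := hD _ h6
    rw [Int.isUnit_iff] at h7
    have := (L.pr p hp).one_lt
    omega

theorem LB.uni (γ : Option T → ZMod 2) {n : ℕ} (hn : Squarefree n) (hc : Cop T n) :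
    Squarefree (Uo γ * (n : ℤ)) ∧ (ct (Uo γ * (n : ℤ)) : Option T → ZMod 2) = γ ∧
      nD T (Uo γ * (n : ℤ)) = n := by
  obtain ⟨h1, h2, h3⟩ := L.uo γ
  have h0 := L.U0 γ
  have hn0 : (n : ℤ) ≠ 0 := Int.natCast_ne_zero.2 hn.ne_zero
  have hct : (ct (Uo γ * (n : ℤ)) : Option T → ZMod 2) = γ := by
    rw [L.ct_mul _ _ h0 hn0, h3, ct_nat hc, add_zero]
  refine ⟨?_, hct, ?_⟩
  · rw [← Int.squarefree_natAbs, Int.natAbs_mul, Int.natAbs_natCast]
    refine (Nat.squarefree_mul ?_).2 ⟨Int.squarefree_natAbs.2 h1, hn⟩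
    rw [Nat.coprime_comm]
    refine Nat.Coprime.symm (Nat.coprime_of_dvd fun k hk h4 h5 => ?_)
    exact hc k (h2 k hk (Int.natCast_dvd.2 h4)) h5
  · unfold nD
    rw [hct, Int.mul_ediv_cancel_left _ h0, Int.natAbs_natCast]

/-- the squarefree integers of a class with a property -/
theorem LB.card_cls (γ ρ : Option T → ZMod 2) (X : ℕ) (C Q : ℤ → Prop) (R : ℕ → Prop)
    (hC : ∀ D, C D ↔ Squarefree D ∧ clD T D = (γ, ρ)) (hR : ∀ n : ℕ, R n ↔ Q (Uo γ * n)) :
    ((Icc (-(X : ℤ)) X).filter fun D => C D ∧ Q D).card =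
      ((Icc 1 (X / (Uo γ).natAbs)).filter fun n => Dn T ρ n ∧ R n).card := by
  have hu0 : 0 < (Uo γ).natAbs := Int.natAbs_pos.2 (L.U0 γ)
  symm
  refine Finset.card_bij (fun (n : ℕ) _ => Uo γ * (n : ℤ)) ?_ ?_ ?_
  · intro n hn
    rw [mem_filter, mem_Icc] at hn
    obtain ⟨⟨h1, h2⟩, ⟨h3, h4, h5⟩, h6⟩ := hn
    obtain ⟨g1, g2, g3⟩ := L.uni γ h3 h4
    rw [mem_filter, mem_Icc, hC, ← hR]
    refine ⟨?_, ⟨g1, ?_⟩, h6⟩
    · rw [← abs_le, abs_mul, Nat.abs_cast, Int.abs_eq_natAbs]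
      have := (Nat.le_div_iff_mul_le hu0).1 h2
      rw [mul_comm] at this
      exact_mod_cast this
    · unfold clD
      rw [g2, g3, h5]
  · intro n _ n' _ h
    have := mul_left_cancel₀ (L.U0 γ) h
    exact_mod_cast this
  · intro D hD
    rw [mem_filter, mem_Icc, hC, ← abs_le] at hD
    obtain ⟨h1, ⟨h2, h3⟩, h4⟩ := hD
    obtain ⟨g1, g2, g3⟩ := L.dec h2
    have h5 : (ct D : Option T → ZMod 2) = γ := congrArg Prod.fst h3
    have h6 : lbl T (nD T D) = ρ := congrArg Prod.snd h3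
    rw [h5] at g1
    refine ⟨nD T D, ?_, g1.symm⟩
    rw [mem_filter, mem_Icc, hR, ← g1]
    refine ⟨⟨Nat.pos_of_ne_zero g2.ne_zero, ?_⟩, ⟨g2, g3, h6⟩, h4⟩
    rw [Nat.le_div_iff_mul_le hu0, mul_comm]
    rw [g1, abs_mul, Nat.abs_cast, Int.abs_eq_natAbs] at h1
    exact_mod_cast h1

omit L in
theorem tend_comp {f : ℕ → ℕ} {c : ℝ} (h : Tendsto (fun X : ℕ => (f X : ℝ) / X) atTop (𝓝 c))
    {u : ℕ} (hu : 0 < u) :
    Tendsto (fun X : ℕ => (f (X / u) : ℝ) / X) atTop (𝓝 (c / u)) := by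
  have h1 : Tendsto (fun X : ℕ => X / u) atTop atTop := Nat.tendsto_div_const_atTop hu.ne'
  have h2 := h.comp h1
  have h3 : Tendsto (fun X : ℕ => ((X / u : ℕ) : ℝ) / X) atTop (𝓝 (1 / u)) := by
    have hu' : (0 : ℝ) < u := by exact_mod_cast hu
    have h4 : Tendsto (fun X : ℕ => (1 : ℝ) / u - 1 / X) atTop (𝓝 (1 / u - 0)) :=
      tendsto_const_nhds.sub (tendsto_const_div_atTop_nhds_zero_nat 1)
    rw [sub_zero] at h4
    refine tendsto_of_tendsto_of_tendsto_of_le_of_le' h4 tendsto_const_nhds ?_ ?_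
    · filter_upwards [eventually_gt_atTop 0] with X hX
      have hX' : (0 : ℝ) < X := by exact_mod_cast hX
      rw [div_sub_div _ _ hu'.ne' hX'.ne', div_le_div_iff₀ (by positivity) hX']
      have h5 : (X : ℝ) ≤ u * ((X / u : ℕ) : ℝ) + u := by
        have h6 := Nat.div_add_mod X u
        have h7 := Nat.mod_lt X hu
        have h8 : X ≤ u * (X / u) + u := by omega
        exact_mod_cast h8
      nlinarith
    · filter_upwards [eventually_gt_atTop 0] with X hX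
      have hX' : (0 : ℝ) < X := by exact_mod_cast hX
      rw [div_le_div_iff₀ hX' hu']
      have h6 := Nat.div_mul_le_self X u
      rw [one_mul]
      exact_mod_cast h6
  have h4 := h2.mul h3
  rw [mul_one_div] at h4
  refine h4.congr' ?_
  filter_upwards [eventually_ge_atTop u] with X hX
  have h5 : (0 : ℝ) < ((X / u : ℕ) : ℝ) := by
    have : 0 < X / u := Nat.div_pos hX hu
    exact_mod_cast this
  simp only [Function.comp]
  field_simp

theorem LB.lim_cls (γ ρ : Option T → ZMod 2) {c : ℝ} (C Q : ℤ → Prop) (R : ℕ → Prop)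
    (hC : ∀ D, C D ↔ Squarefree D ∧ clD T D = (γ, ρ)) (hR : ∀ n : ℕ, R n ↔ Q (Uo γ * n))
    (h : Tendsto (fun X : ℕ => (((Icc 1 X).filter fun n => Dn T ρ n ∧ R n).card : ℝ) / X)
      atTop (𝓝 c)) :
    Tendsto (fun X : ℕ => (((Icc (-(X : ℤ)) X).filter fun D => C D ∧ Q D).card : ℝ) / X)
      atTop (𝓝 (c / (Uo γ).natAbs)) := by
  have h1 := tend_comp (f := fun X => ((Icc 1 X).filter fun n => Dn T ρ n ∧ R n).card) h
    (Int.natAbs_pos.2 (L.U0 γ))
  refine h1.congr fun X => ?_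
  rw [L.card_cls γ ρ X C Q R hC hR]

omit L in
/-- the sum over the classes -/
theorem lim_sum (𝒞 : Finset (Cl T)) (C Q : ℤ → Prop)
    (hC : ∀ D, C D ↔ Squarefree D ∧ clD T D ∈ 𝒞) (c : Cl T → ℝ)
    (h : ∀ x ∈ 𝒞, ∀ C' : ℤ → Prop, (∀ D, C' D ↔ Squarefree D ∧ clD T D = x) →
      Tendsto (fun X : ℕ => (((Icc (-(X : ℤ)) X).filter fun D => C' D ∧ Q D).card : ℝ) / X)
        atTop (𝓝 (c x))) :
    Tendsto (fun X : ℕ => (((Icc (-(X : ℤ)) X).filter fun D => C D ∧ Q D).card : ℝ) / X)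
      atTop (𝓝 (∑ x ∈ 𝒞, c x)) := by
  obtain ⟨C', hC'⟩ : ∃ C' : Cl T → ℤ → Prop, ∀ x D, C' x D ↔ Squarefree D ∧ clD T D = x :=
    ⟨_, fun _ _ => Iff.rfl⟩
  have h1 := tendsto_finsetSum 𝒞 fun x hx => h x hx (C' x) (hC' x)
  refine h1.congr fun X => ?_
  rw [← Finset.sum_div]
  congr 1
  rw [Finset.card_eq_sum_card_fiberwise (f := clD T) (t := 𝒞) (fun D hD => by
    have := (mem_filter.1 (Finset.mem_coe.1 hD)).2.1
    exact Finset.mem_coe.2 ((hC D).1 this).2)]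
  push_cast
  refine Finset.sum_congr rfl fun x hx => ?_
  congr 2
  ext D
  rw [mem_filter, mem_filter, mem_filter, hC, hC']
  constructor
  · rintro ⟨a1, ⟨a2, a3⟩, a4⟩
    exact ⟨⟨a1, ⟨a2, a3 ▸ hx⟩, a4⟩, a3⟩
  · rintro ⟨⟨a1, ⟨a2, -⟩, a4⟩, a3⟩
    exact ⟨a1, ⟨a2, a3⟩, a4⟩

end Q44.JQ
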