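import Pool.Agent.Q44.JQ.StmC
import Pool.Agent.Q44.JQ.Bx
import Pool.Agent.Q44.BM.SQ
import Pool.Agent.Q44.BM.Pos
import Pool.Agent.Q44.BN.Law

/-!
# The family of the primes outside `T`, labels, blocks
-/

set_option autoImplicit false
set_option linter.unusedSectionVars false

open scoped Classical

namespace Q44.JQ

open Finset Module Filter
open Pool.Agent.Y703.CQ (nr prs ext)
open Q44.BM (Fam RC GT Rch lab card_im nr_rec vm HM hm_cls Ok SS)
open Q44.BP (BX NdK)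
open Q44.BN (jv jv_one jv_neg_one)

/-- the modulus -/
def MT (T : Finset ℕ) : ℕ := 8 * ∏ p ∈ T, p

/-- a finite set of primes which contains 2 -/
structure TS (T : Finset ℕ) : Prop where
  pr : ∀ p ∈ T, p.Prime
  two : 2 ∈ T

variable {T : Finset ℕ}

theorem TS.M_pos (h : TS T) : 0 < MT T :=
  Nat.mul_pos (by norm_num) (Finset.prod_pos fun p hp => (h.pr p hp).pos)

theorem TS.cop (h : TS T) {n : ℕ} : n.Coprime (MT T) ↔ Cop T n := by
  unfold MT Cop
  constructor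
  · intro h1 p hp hd
    have h2 : p ∣ 8 * ∏ p ∈ T, p := (Finset.dvd_prod_of_mem _ hp).mul_left _
    exact (h.pr p hp).one_lt.ne' (Nat.dvd_one.1 (by
      have := Nat.dvd_gcd hd h2
      rwa [h1] at this))
  · intro h1
    have h2 : n.Coprime (∏ p ∈ T, p) := Nat.Coprime.prod_right fun p hp =>
      ((Nat.Prime.coprime_iff_not_dvd (h.pr p hp)).2 (h1 p hp)).symm
    have h3 : n.Coprime 2 := ((Nat.Prime.coprime_iff_not_dvd Nat.prime_two).2 (h1 2 h.two)).symm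
    have h4 : n.Coprime 8 := by
      have : (8 : ℕ) = 2 ^ 3 := by norm_num
      rw [this]
      exact Nat.Coprime.pow_right 3 h3
    exact Nat.Coprime.mul_right h4 h2

theorem TS.prime_cop (h : TS T) {p : ℕ} (hp : p.Prime) : Cop T p ↔ p ∉ T := by
  constructor
  · intro h1 h2
    exact h1 p h2 dvd_rfl
  · intro h1 q hq hd
    rcases (Nat.dvd_prime hp).1 hd with h2 | h2
    · exact (h.pr q hq).one_lt.ne' h2
    · exact h1 (h2 ▸ hq)

theorem TS.ne2 (h : TS T) {p : ℕ} (hp : p ∉ T) : p ≠ 2 := fun h' => hp (h' ▸ h.two)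

/-- the primes outside `T` -/
def RT (T : Finset ℕ) (h : TS T) : RC where
  m := MT T
  𝒜 := (range (MT T)).filter fun a => a.Coprime (MT T)
  ℬ := ∅
  h4 := (by norm_num : 4 ∣ 8).mul_right _
  pos := h.M_pos
  hA := fun a ha => ⟨mem_range.1 (mem_filter.1 ha).1, (mem_filter.1 ha).2⟩
  h1 := by
    refine mem_filter.2 ⟨mem_range.2 ?_, Nat.coprime_one_left _⟩
    have h1 : 1 ≤ ∏ p ∈ T, p := Finset.prod_pos fun p hp => (h.pr p hp).pos
    unfold MT
    omega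
  hB := fun b hb => absurd hb (Finset.notMem_empty b)
  dis := Finset.disjoint_empty_right _

theorem RT_A (h : TS T) {p : ℕ} : (RT T h).Φ.A p ↔ p.Prime ∧ p ∉ T := by
  show (p.Prime ∧ p % MT T ∈ (range (MT T)).filter fun a => a.Coprime (MT T)) ↔ _
  refine and_congr_right fun hp => ?_
  rw [mem_filter, mem_range, ← h.prime_cop hp, ← h.cop]
  have e : (p % MT T).Coprime (MT T) ↔ p.Coprime (MT T) := by
    unfold Nat.Coprime
    rw [← Nat.gcd_rec, Nat.gcd_comm]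
  rw [e]
  exact ⟨fun h1 => h1.2, fun h1 => ⟨Nat.mod_lt _ h.M_pos, h1⟩⟩

theorem RT_P (h : TS T) {p : ℕ} : (RT T h).Φ.P p ↔ p.Prime ∧ p ∉ T := by
  rw [← RT_A h]
  constructor
  · rintro (h1 | h1)
    · exact h1
    · exact absurd h1.2 (Finset.notMem_empty _)
  · exact Or.inl

/-- the facts on labels -/
structure LB (T : Finset ℕ) : Prop extends TS T where
  add : ∀ n n' : ℕ, Cop T n → Cop T n' → lbl T (n * n') = lbl T n + lbl T n'
  sq : ∀ n n' : ℕ, Cop T n → Cop T n' → lbl T n = lbl T n' → ∀ (p : ℕ) [Fact p.Prime], p ∈ T →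
    IsSquare ((n : ℚ_[p]) * (n' : ℚ_[p]))
  ex : ∀ (φ : Option T → ZMod 2) (B : ℕ), ∃ p : ℕ, p.Prime ∧ B < p ∧ p ∉ T ∧ lbl T p = φ
  md : ∀ n n' : ℕ, Cop T n → n % (8 * ∏ p ∈ T, p) = n' % (8 * ∏ p ∈ T, p) → lbl T n = lbl T n'
  uo : ∀ γ : Option T → ZMod 2, Squarefree (Uo γ) ∧ (∀ p : ℕ, p.Prime → (p : ℤ) ∣ Uo γ → p ∈ T) ∧
    ct (Uo γ) = γ
  ct_sq : ∀ z : ℤ, z ≠ 0 → (∀ p : ℕ, p.Prime → (p : ℤ) ∣ z → p ∈ T) → ∃ w : ℤ, w ≠ 0 ∧
    z * Uo (ct z : Option T → ZMod 2) = w ^ 2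
  ct_mul : ∀ z z' : ℤ, z ≠ 0 → z' ≠ 0 → (ct (z * z') : Option T → ZMod 2) = ct z + ct z'

theorem LB.of (h : S_LBL) (hT : TS T) : LB T := by
  obtain ⟨h1, h2, h3, h4, h5, h6, h7, h8⟩ := h T hT.pr hT.two
  exact ⟨hT, h1, h3, h4, h5, h6, h7, h8⟩

variable (L : LB T)

theorem lbl_one : lbl T 1 = 0 := funext fun o => jv_one _

include L

theorem LB.lbl_mod {n : ℕ} (hn : Cop T n) : lbl T (n % MT T) = lbl T n := by
  refine (L.md n _ hn ?_).symm
  show n % MT T = n % MT T % MT T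
  rw [Nat.mod_mod]

theorem LB.lbl_E {p : ℕ} (hp : (RT T L.toTS).Φ.E p) : lbl T p = 0 := by
  have h1 : p.Prime ∧ p % MT T = 1 := hp
  have h2 := (RT_A L.toTS).1 ((RT T L.toTS).Φ.hE p hp)
  have h3 := L.lbl_mod ((L.toTS.prime_cop h2.1).2 h2.2)
  rw [h1.2, lbl_one] at h3
  exact h3.symm

theorem lbl_none {p : ℕ} (hp : p.Prime) (hpT : p ∉ T) : lbl T p none = vm p :=
  jv_neg_one hp (L.toTS.ne2 hpT)

/-- the classes of primes -/
def clT (T : Finset ℕ) (φ : Option T → ZMod 2) (p : ℕ) : Prop := p.Prime ∧ p ∉ T ∧ lbl T p = φ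

theorem LB.hm (φ : Option T → ZMod 2) : HM (clT T φ) := by
  set S := (range (MT T)).filter fun a => a.Coprime (MT T) ∧ lbl T a = φ with hS
  have h1 := hm_cls L.toTS.M_pos S (fun a ha => by
    rw [hS, mem_filter, mem_range] at ha
    exact ⟨ha.1, ha.2.1⟩) (by
    obtain ⟨p, hp, -, hpT, hl⟩ := L.ex φ 0
    have hc : Cop T p := (L.toTS.prime_cop hp).2 hpT
    have hc' := L.toTS.cop.2 hc
    refine ⟨p % MT T, ?_⟩
    rw [hS, mem_filter, mem_range]
    refine ⟨Nat.mod_lt _ L.toTS.M_pos, ?_, ?_⟩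
    · unfold Nat.Coprime at hc' ⊢
      rw [← Nat.gcd_rec, Nat.gcd_comm]
      exact hc'
    · rw [L.lbl_mod hc]
      exact hl)
  have e : (clT T φ) = fun p => p.Prime ∧ p % MT T ∈ S := by
    funext p
    refine propext ?_
    unfold clT
    refine and_congr_right fun hp => ?_
    rw [hS, mem_filter, mem_range]
    constructor
    · rintro ⟨hpT, hl⟩
      have hc : Cop T p := (L.toTS.prime_cop hp).2 hpT
      have hc' := L.toTS.cop.2 hc
      refine ⟨Nat.mod_lt _ L.toTS.M_pos, ?_, ?_⟩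
      · unfold Nat.Coprime at hc' ⊢
        rw [← Nat.gcd_rec, Nat.gcd_comm]
        exact hc'
      · rw [L.lbl_mod hc]
        exact hl
    · rintro ⟨-, h2, h3⟩
      have hc : p.Coprime (MT T) := by
        unfold Nat.Coprime at h2 ⊢
        rw [← Nat.gcd_rec, Nat.gcd_comm] at h2
        exact h2
      have hc' := L.toTS.cop.1 hc
      refine ⟨(L.toTS.prime_cop hp).1 hc', ?_⟩
      rw [← L.lbl_mod hc']
      exact h3
  rw [e]
  exact h1

theorem LB.lbx : Lbx (RT T L.toTS).Φ (clT T)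
    (fun p => (⟨p % MT T, Nat.mod_lt _ L.toTS.M_pos⟩ : Fin (MT T))) (lbl T) := by
  intro p q hp hq he
  have he' : p % MT T = q % MT T := congrArg Fin.val he
  obtain ⟨hp1, hp2⟩ := (RT_P L.toTS).1 hp
  obtain ⟨hq1, hq2⟩ := (RT_P L.toTS).1 hq
  have hl : lbl T p = lbl T q := by
    rw [← L.lbl_mod ((L.toTS.prime_cop hp1).2 hp2), ← L.lbl_mod ((L.toTS.prime_cop hq1).2 hq2), he']
  refine ⟨?_, fun φ => ?_, hl⟩
  · show (p.Prime ∧ p % MT T = 1) ↔ (q.Prime ∧ q % MT T = 1)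
    rw [he']
    exact and_congr_left fun _ => ⟨fun _ => hq1, fun _ => hp1⟩
  · unfold clT
    rw [hl]
    exact ⟨fun h => ⟨hq1, hq2, h.2.2⟩, fun h => ⟨hp1, hp2, h.2.2⟩⟩

theorem LB.rch (ρ : Option T → ZMod 2) : Rch (RT T L.toTS).Φ (lbl T) ρ := by
  obtain ⟨p, hp, -, hpT, hl⟩ := L.ex ρ 0
  refine ⟨{p}, fun q hq => ?_, ?_⟩
  · rw [Finset.mem_singleton.1 hq]
    exact (RT_P L.toTS).2 ⟨hp, hpT⟩
  · unfold GT
    rw [Finset.sum_singleton]
    exact hl

omit L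

/-- the block of a tuple of primes -/
noncomputable def bkT (T : Finset ℕ) {ι : Type} (S₀ : Finset ℕ) (p : ι → ℕ) : Bk (Option T) S₀ ι where
  A u u' := nr u u'
  B u i := nr u (p i)
  C i u := nr (p i) u
  hU u := lbl T u
  hJ i := lbl T (p i)

include L

theorem bkT_ok {ι : Type} [Fintype ι] [LinearOrder ι] {S₀ : Finset ℕ} {p : ι → ℕ} {R : ℕ}
    (hS₀ : ∀ u ∈ S₀, (RT T L.toTS).Φ.P u) (hP : ∀ i, (RT T L.toTS).Φ.P (p i))
    (hp : Function.Injective p) (hd : ∀ i, p i ∉ S₀) {ρ : Option T → ZMod 2}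
    (hN : NdK (RT T L.toTS).Φ (clT T) R S₀ (univ.image p))
    (hG : GT (lbl T) ρ (S₀ ∪ univ.image p)) : (bkT T S₀ p).Ok none ρ R where
  rU := by
    intro u u' hne
    show nr u' u = nr u u' + lbl T u none * lbl T u' none
    obtain ⟨h1, h2⟩ := (RT_P L.toTS).1 (hS₀ u u.2)
    obtain ⟨h3, h4⟩ := (RT_P L.toTS).1 (hS₀ u' u'.2)
    rw [lbl_none L h1 h2, lbl_none L h3 h4, mul_comm]
    exact nr_rec h3 (L.toTS.ne2 h4) h1 (L.toTS.ne2 h2) fun h => hne (Subtype.ext h.symm)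
  rJ := by
    intro u i
    show nr u (p i) = nr (p i) u + lbl T u none * lbl T (p i) none
    obtain ⟨h1, h2⟩ := (RT_P L.toTS).1 (hS₀ u u.2)
    obtain ⟨h3, h4⟩ := (RT_P L.toTS).1 (hP i)
    rw [lbl_none L h1 h2, lbl_none L h3 h4]
    exact nr_rec h1 (L.toTS.ne2 h2) h3 (L.toTS.ne2 h4) fun h => hd i (h ▸ u.2)
  nd := by
    intro μ hμ
    obtain ⟨u, hu⟩ : ∃ u, μ u ≠ 0 := by
      by_contra hc
      push Not at hc
      exact hμ (funext hc)
    obtain ⟨q, hq, hE, hs⟩ := hN.1 (fun n => if h : n ∈ S₀ then μ ⟨n, h⟩ else 0)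
      ⟨u, u.2, (RT_A L.toTS).2 ((RT_P L.toTS).1 (hS₀ u u.2)), by rw [dif_pos u.2]; exact hu⟩
    obtain ⟨i, -, rfl⟩ := Finset.mem_image.1 hq
    refine ⟨i, L.lbl_E hE, ?_⟩
    intro h0
    apply hs
    have e1 : S₀.filter (fun u => (RT T L.toTS).Φ.A u) = S₀ := by
      refine Finset.filter_true_of_mem fun u hu => ?_
      exact (RT_A L.toTS).2 ((RT_P L.toTS).1 (hS₀ u hu))
    rw [e1, ← Finset.sum_coe_sort S₀, ← h0]
    refine Finset.sum_congr rfl fun v _ => ?_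
    rw [dif_pos v.2]
    rfl
  many := by
    intro φ
    have h1 := hN.2 φ
    rw [card_im hp] at h1
    rw [Fintype.card_coe]
    refine h1.trans (le_of_eq ?_)
    congr 1
    refine Finset.filter_congr fun i _ => ?_
    show (p i).Prime ∧ p i ∉ T ∧ lbl T (p i) = φ ↔ lbl T (p i) = φ
    obtain ⟨h3, h4⟩ := (RT_P L.toTS).1 (hP i)
    exact ⟨fun h => h.2.2, fun h => ⟨h3, h4, h⟩⟩
  tot := by
    have hdis : Disjoint S₀ (univ.image p) := by
      rw [Finset.disjoint_left]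
      intro x hx hx'
      obtain ⟨i, -, rfl⟩ := Finset.mem_image.1 hx'
      exact hd i hx
    unfold GT at hG
    rw [Finset.sum_union hdis, Finset.sum_image fun i _ j _ hij => hp hij] at hG
    rw [Fintype.sum_sum_type, ← hG]
    congr 1
    rw [← Finset.sum_coe_sort S₀]
    rfl

end Q44.JQ
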