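import Pool.Agent.Q44.JQ.Dec

/-!
# The labels of the squarefree integers are equidistributed
-/

set_option autoImplicit false
set_option linter.unusedSectionVars false

open scoped Classical Topology

namespace Q44.JQ

open Finset Module Filter

variable {T : Finset ℕ} (L : LB T)

/-- the residues with a given label -/
noncomputable def Ar (T : Finset ℕ) (ρ : Option T → ZMod 2) : Finset ℕ :=
  (range (MT T)).filter fun a => a.Coprime (MT T) ∧ lbl T a = ρ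

theorem mem_Ar {ρ : Option T → ZMod 2} {a : ℕ} :
    a ∈ Ar T ρ ↔ a < MT T ∧ a.Coprime (MT T) ∧ lbl T a = ρ := by
  unfold Ar
  rw [mem_filter, mem_range]

theorem cop_mod {m n : ℕ} : (n % m).Coprime m ↔ n.Coprime m := by
  unfold Nat.Coprime
  rw [← Nat.gcd_rec, Nat.gcd_comm]

include L

theorem LB.cop_mul {a b : ℕ} (ha : Cop T a) (hb : Cop T b) : Cop T (a * b) := by
  intro p hp hd
  rcases (Nat.Prime.dvd_mul (L.pr p hp)).1 hd with h | h
  · exact ha p hp h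
  · exact hb p hp h

theorem LB.card_Ar_le (ρ ρ' : Option T → ZMod 2) : (Ar T ρ).card ≤ (Ar T ρ').card := by
  obtain ⟨q, hq, -, hqT, hl⟩ := L.ex (ρ + ρ') 0
  have hqc : Cop T q := (L.toTS.prime_cop hq).2 hqT
  have hqm : q.Coprime (MT T) := L.toTS.cop.2 hqc
  refine Finset.card_le_card_of_injOn (fun a => a * q % MT T) ?_ ?_
  · intro a ha
    rw [Finset.mem_coe, mem_Ar] at ha ⊢
    obtain ⟨-, h2, h3⟩ := ha
    have h4 := L.toTS.cop.1 h2
    refine ⟨Nat.mod_lt _ L.toTS.M_pos, ?_, ?_⟩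
    · rw [cop_mod]
      exact Nat.Coprime.mul_left h2 hqm
    · rw [L.lbl_mod (L.cop_mul h4 hqc), L.add _ _ h4 hqc, h3, hl, ← add_assoc,
        CharTwo.add_self_eq_zero, zero_add]
  · intro a ha b hb hab
    rw [Finset.mem_coe, mem_Ar] at ha hb
    have h1 : a * q ≡ b * q [MOD MT T] := hab
    have h2 := Nat.ModEq.cancel_right_of_coprime (by rw [Nat.gcd_comm]; exact hqm) h1
    exact Nat.ModEq.eq_of_lt_of_lt h2 ha.1 hb.1

theorem LB.card_Ar (ρ ρ' : Option T → ZMod 2) : (Ar T ρ).card = (Ar T ρ').card :=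
  le_antisymm (L.card_Ar_le ρ ρ') (L.card_Ar_le ρ' ρ)

theorem LB.Ar_pos (ρ : Option T → ZMod 2) : 0 < (Ar T ρ).card := by
  obtain ⟨q, hq, -, hqT, hl⟩ := L.ex ρ 0
  have hqc : Cop T q := (L.toTS.prime_cop hq).2 hqT
  have hqm : q.Coprime (MT T) := L.toTS.cop.2 hqc
  refine Finset.card_pos.2 ⟨q % MT T, mem_Ar.2 ⟨Nat.mod_lt _ L.toTS.M_pos, cop_mod.2 hqm, ?_⟩⟩
  rw [L.lbl_mod hqc, hl]

theorem LB.dens (hS : S_SQM) : ∃ δ : ℝ, 0 < δ ∧ ∀ ρ : Option T → ZMod 2,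
    Tendsto (fun X : ℕ => (((Icc 1 X).filter fun n => Dn T ρ n).card : ℝ) / X) atTop (𝓝 δ) := by
  obtain ⟨δ, hδ, h⟩ := hS (MT T) L.toTS.M_pos
  refine ⟨(Ar T 0).card * δ, mul_pos (by exact_mod_cast L.Ar_pos 0) hδ, fun ρ => ?_⟩
  rw [L.card_Ar 0 ρ]
  have h1 : Tendsto (fun X : ℕ => ∑ a ∈ Ar T ρ,
      (((Icc 1 X).filter fun n => Squarefree n ∧ n % MT T = a % MT T).card : ℝ) / X) atTop
      (𝓝 (∑ a ∈ Ar T ρ, δ)) := tendsto_finsetSum _ fun a ha => h a (mem_Ar.1 ha).2.1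
  rw [Finset.sum_const, nsmul_eq_mul] at h1
  refine h1.congr fun X => ?_
  rw [← Finset.sum_div]
  congr 1
  rw [Finset.card_eq_sum_card_fiberwise (f := fun n => n % MT T) (t := Ar T ρ) (fun n hn => by
    obtain ⟨-, -, h3, h4⟩ := mem_filter.1 (Finset.mem_coe.1 hn)
    refine Finset.mem_coe.2 (mem_Ar.2 ⟨Nat.mod_lt _ L.toTS.M_pos, ?_, ?_⟩)
    · exact cop_mod.2 (L.toTS.cop.2 h3)
    · rw [L.lbl_mod h3, h4])]
  push_cast
  refine Finset.sum_congr rfl fun a ha => ?_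
  obtain ⟨h1, h2, h3⟩ := mem_Ar.1 ha
  congr 2
  ext n
  rw [mem_filter, mem_filter, mem_filter]
  unfold Dn
  constructor
  · rintro ⟨a1, a2, a3⟩
    rw [Nat.mod_eq_of_lt h1] at a3
    have h5 : n.Coprime (MT T) := by
      rw [← cop_mod, a3]
      exact h2
    have h6 := L.toTS.cop.1 h5
    refine ⟨⟨a1, a2, h6, ?_⟩, a3⟩
    rw [← L.lbl_mod h6, a3, h3]
  · rintro ⟨⟨a1, a2, -, -⟩, a3⟩
    refine ⟨a1, a2, ?_⟩
    rw [Nat.mod_eq_of_lt h1]
    exact a3

/-- the law with the number of all integers as denominator -/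
theorem LB.lim_mul {δ c : ℝ} {ρ : Option T → ZMod 2}
    (h : Tendsto (fun X : ℕ => (((Icc 1 X).filter fun n => Dn T ρ n).card : ℝ) / X) atTop (𝓝 δ))
    (R : ℕ → Prop) (h1 : Tendsto (fun X : ℕ => (((Icc 1 X).filter fun n => Dn T ρ n ∧ R n).card : ℝ) /
      (((Icc 1 X).filter fun n => Dn T ρ n).card : ℝ)) atTop (𝓝 c)) :
    Tendsto (fun X : ℕ => (((Icc 1 X).filter fun n => Dn T ρ n ∧ R n).card : ℝ) / X)
      atTop (𝓝 (δ * c)) := by
  have h2 := h.mul h1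
  refine h2.congr fun X => ?_
  by_cases h0 : (((Icc 1 X).filter fun n => Dn T ρ n).card : ℝ) = 0
  · have h3 : (((Icc 1 X).filter fun n => Dn T ρ n ∧ R n).card : ℝ) = 0 := by
      have h4 : ((Icc 1 X).filter fun n => Dn T ρ n ∧ R n).card ≤
          ((Icc 1 X).filter fun n => Dn T ρ n).card :=
        card_le_card fun n hn => by
          rw [mem_filter] at hn ⊢
          exact ⟨hn.1, hn.2.1⟩
      have h5 : ((Icc 1 X).filter fun n => Dn T ρ n).card = 0 := by exact_mod_cast h0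
      rw [h5] at h4
      exact_mod_cast Nat.le_zero.1 h4
    rw [h0, h3, zero_div, zero_div, zero_mul]
  · rcases eq_or_ne (X : ℝ) 0 with hX | hX
    · rw [hX, div_zero, div_zero, zero_mul]
    · field_simp

end Q44.JQ
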