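import Pool.Agent.Q44.JQ.StmE

/-!
# Project JQ, third version: several twists `J k (D m)` of every Jacobian, `m` in a finite set

The integers `m` are positive and prime to the bad primes `T`; they are supported on `T' \ T`, `T'` a larger
set of primes.
-/

set_option autoImplicit false
set_option linter.unusedVariables false

namespace Q44.JQ

open Finset Module
open Pool.Agent.Y703.CQ (nr prs ext)
open Pool.Agent.TH344.JG (PR df)
open scoped Classical

/-- the same curve with a larger set of primes -/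
def Cr.ex {T T' : Finset ℕ} (h : T ⊆ T') (c : Cr T) : Cr T' where
  g := c.g
  hg := c.hg
  a := c.a
  inj := c.inj
  supp := fun i j hij p hp hd => h (c.supp i j hij p hp hd)

/-- the indices -/
def inT {T T' : Finset ℕ} (h : T ⊆ T') : Option T → Option T' := Option.map fun t => ⟨t, h t.2⟩

/-- restriction of labels -/
def rs {T T' : Finset ℕ} (h : T ⊆ T') (ρ : Option T' → ZMod 2) : Option T → ZMod 2 := fun o => ρ (inT h o)

/-- JQ-CHT: change of the set of primes. `M` is a set of primes in `T' \ T`, `m` its product. The system of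
the twist by `m n` (`S ∪ M`, set of primes `T`) is the system of the curve with the roots `m a i` and the
twist by `n` (`S`, set of primes `T'`) for a suitable subspace `𝓛'`. Proof: let `s' = Option T'`. For
`(δ', ψ')` put `x_q = δ' (some q)` for `q` in `M`, `δ = δ'` restricted to `Option T`,
`ψ o = ψ' o + ∑_{q in M} lbl T q o • x_q` for `o` in `Option T`, and for `q` in `M`

`row_q = ψ' q + v_q • ψ' none + (ρ' q + v_q * ρ' none) • x_q + ∑_{q' in M} nr q q' • (x_q' + x_q) +
TT (lbl T q) x_q + ∑_{o in Option T} lbl T q o • δ o`, `v_q = lbl T q none`.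

`𝓛'` is the space of the `(δ', ψ')` such that `δ' q = 0` for `q` in `T' \ (T ∪ M)`, `row_q = 0` for `q` in `M` and
`(δ, ψ)` is in `𝓛`. For a set `S` of primes outside `T'` with label `ρ'` the map
`(δ, x) ↦ ((δ, (x_q)_{q in M}, 0), x restricted to S)` is an isomorphism of the spaces of the solutions
(the rows at the primes of `S` are the same since `lbl T' p (some q) = nr p q` for `q` in `M` and
`TT' φ' x = TT (rs φ') x + (∑_{q in M} φ' q) • x` for the curve with roots `m a i`; the row at `q` in `M` is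
`row_q` by reciprocity `nr q p = nr p q + v_p v_q`). `card`: count. `tor`: the element of `x` is the image
of the torsion element. `sing`: choose an abstract index set `P = Option T'` with labels
`h' o = Pi.single o 1` and symbols with reciprocity; `S_ID` for the system with primes `P` and the set `T'`
and for the system with primes `P` and `M` and the set `T` (same rows at `P`) gives
`q' (δ', ψ') = q (δ, ψ) + ∑_{q in M} ω (x_q, row_q)`. Parity: the same isomorphism for the abstract index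
set and `S_PAR` for both systems (take `P` with `∑ h' = ρ'`, for instance `Option T'` with one or two
further elements). -/
def S_CHT : Prop := ∀ (T T' : Finset ℕ) (h : T ⊆ T'), (∀ p ∈ T', p.Prime) → 2 ∈ T →
  ∀ (M : Finset ℕ), M ⊆ T' \ T → ∀ (hm : (∏ q ∈ M, (q : ℤ)) ≠ 0)
  (hs : ∀ p : ℕ, p.Prime → (p : ℤ) ∣ ∏ q ∈ M, (q : ℤ) → p ∈ T') (c : Cr T)
  (ρ' : Option T' → ZMod 2) (𝓛 : Submodule (ZMod 2) ((Option T → c.V) × (Option T → c.V))),
  (c.dj 𝓛).Ok (rs h ρ' + lbl T (∏ q ∈ M, q)) →
  ∃ 𝓛' : Submodule (ZMod 2) ((Option T' → c.V) × (Option T' → c.V)),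
    (((c.ex h).mul (∏ q ∈ M, (q : ℤ)) hm hs).dj 𝓛').Ok ρ' ∧
    ((finrank (ZMod 2) (((c.ex h).mul (∏ q ∈ M, (q : ℤ)) hm hs).dj 𝓛').pm : ℕ) : ZMod 2) =
      ((finrank (ZMod 2) (c.dj 𝓛).pm : ℕ) : ZMod 2) ∧
    ∀ S : Finset ℕ, (∀ p ∈ S, p.Prime ∧ p ∉ T') → ∑ p ∈ S, lbl T' p = ρ' →
      Nat.card (Sel (c.dj 𝓛) (fun p q : ↥(S ∪ M) => nr p q) (fun p : ↥(S ∪ M) => lbl T p)) =
        Nat.card (Sel (((c.ex h).mul (∏ q ∈ M, (q : ℤ)) hm hs).dj 𝓛') (fun p q : S => nr p q)
          (fun p : S => lbl T' p))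

/-- JQ-ADJM: several curves and several multipliers `w m`. Proof: as `S_ADJP`; moreover for a prime `q` of
`T` which is good for all the curves, the operator for `φ = Pi.single (some q) 1` is the scalar
`padicValInt q (w m)` on the factor `(k, m)`, so the algebra contains the idempotents which separate
the `m`. -/
def S_ADJM : Prop := ∀ (T : Finset ℕ), (∀ p ∈ T, p.Prime) → 2 ∈ T → ∀ (κ ℳ : Type) [Fintype κ]
  [Fintype ℳ] (c : κ → Cr T) (p : κ → T) (i : ∀ k, PR (2 * (c k).g + 1)) (w : ℳ → ℤ)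
  (hw : ∀ m, w m ≠ 0) (hs : ∀ m, ∀ p : ℕ, p.Prime → (p : ℤ) ∣ w m → p ∈ T),
  (∀ k, (c k).Irr) → (∀ k, (c k).Nice (p k) (i k)) → (∀ k l, k ≠ l → (c k).Good (p l)) →
  (∀ k m, ¬ (((p k : T) : ℕ) : ℤ) ∣ w m) →
  (∀ m m', m ≠ m' → ∃ q : T, (∀ k, (c k).Good q) ∧
    ((padicValInt q (w m) : ℕ) : ZMod 2) ≠ ((padicValInt q (w m') : ℕ) : ZMod 2)) →
  ∀ 𝓛 : ∀ x : κ × ℳ, Submodule (ZMod 2) ((Option T → (c x.1).V) × (Option T → (c x.1).V)),
      Adj2 (V := fun x : κ × ℳ => (c x.1).V) fun x => ((c x.1).mul (w x.2) (hw x.2) (hs x.2)).dj (𝓛 x)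

end Q44.JQ
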