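import Pool.Agent.Q44.JQ.Lab

/-!
# The solutions of the system of a set of primes and of its block
-/

set_option autoImplicit false
set_option linter.unusedSectionVars false

open scoped Classical

namespace Q44.JQ

open Finset Module Filter
open Pool.Agent.Y703.CQ (nr prs ext)
open Q44.BM (Fam RC GT Rch lab card_im nr_rec vm HM hm_cls Ok SS)
open Q44.BP (BX NdK)
open Q44.BN (jv jv_one jv_neg_one)

section reindex

variable {s V P P' : Type} [Fintype s] [AddCommGroup V] [Module (ZMod 2) V] [Fintype P] [Fintype P']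

/-- change of the index set -/
noncomputable def rxE (V : Type) (s : Type) [AddCommGroup V] [Module (ZMod 2) V] (e : P ≃ P') :
    ((s → V) × (P → V)) ≃ₗ[ZMod 2] ((s → V) × (P' → V)) :=
  (LinearEquiv.refl (ZMod 2) (s → V)).prodCongr (LinearEquiv.funCongrLeft (ZMod 2) V e.symm)

theorem rxE_fst (e : P ≃ P') (x : (s → V) × (P → V)) : (rxE V s e x).1 = x.1 := rfl

theorem rxE_snd (e : P ≃ P') (x : (s → V) × (P → V)) (p : P) : (rxE V s e x).2 (e p) = x.2 p := by
  show x.2 (e.symm (e p)) = x.2 p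
  rw [Equiv.symm_apply_apply]

theorem sel_reindex (D : Dj s V) (e : P ≃ P') (N : P → P → ZMod 2) (N' : P' → P' → ZMod 2)
    (h : P → s → ZMod 2) (h' : P' → s → ZMod 2) (hh : ∀ p, h' (e p) = h p)
    (hN : ∀ p q, p ≠ q → N' (e p) (e q) = N p q) :
    finrank (ZMod 2) (Sel D N h) = finrank (ZMod 2) (Sel D N' h') := by
  have h1 : ∀ x, clL h' (rxE V s e x) = clL h x := by
    intro x
    refine Prod.ext rfl (funext fun t => ?_)
    show ∑ p', h' p' t • (rxE V s e x).2 p' = ∑ p, h p t • x.2 p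
    rw [← Equiv.sum_comp e]
    refine sum_congr rfl fun p _ => ?_
    rw [hh, rxE_snd]
  have h2 : ∀ x p, rowL D N' h' (rxE V s e x) (e p) = rowL D N h x p := by
    intro x p
    show ∑ q', N' (e p) q' • ((rxE V s e x).2 q' + (rxE V s e x).2 (e p)) +
      D.T (h' (e p)) ((rxE V s e x).2 (e p)) + ∑ t, h' (e p) t • x.1 t =
      ∑ q, N p q • (x.2 q + x.2 p) + D.T (h p) (x.2 p) + ∑ t, h p t • x.1 t
    rw [hh, rxE_snd, ← Equiv.sum_comp e]
    congr 2
    refine sum_congr rfl fun q _ => ?_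
    rw [rxE_snd]
    by_cases hpq : p = q
    · subst hpq
      have e1 : x.2 p + x.2 p = 0 := by
        have := two_smul (ZMod 2) (x.2 p)
        rw [← this, show (2 : ZMod 2) = 0 by decide, zero_smul]
      rw [e1, smul_zero, smul_zero]
    · rw [hN p q hpq]
  have h3 : ∀ x, x ∈ Sel D N h ↔ rxE V s e x ∈ Sel D N' h' := by
    intro x
    unfold Sel
    rw [Submodule.mem_inf, Submodule.mem_inf, Submodule.mem_comap, Submodule.mem_comap,
      LinearMap.mem_ker, LinearMap.mem_ker, h1]
    refine and_congr_right fun _ => ?_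
    constructor
    · intro h4
      funext p'
      obtain ⟨p, rfl⟩ := e.surjective p'
      rw [h2, h4]
      rfl
    · intro h4
      funext p
      rw [← h2, h4]
      rfl
  refine LinearEquiv.finrank_eq (LinearEquiv.ofSubmodules (rxE V s e) _ _ ?_)
  ext y
  rw [Submodule.mem_map]
  constructor
  · rintro ⟨x, hx, rfl⟩
    exact (h3 x).1 hx
  · intro hy
    refine ⟨(rxE V s e).symm y, ?_, ?_⟩
    · rw [h3, LinearEquiv.apply_symm_apply]
      exact hy
    · exact LinearEquiv.apply_symm_apply _ _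

end reindex

variable {T : Finset ℕ} (L : LB T)

/-- the elements of the set of the primes -/
noncomputable def eqS {ι : Type} [Fintype ι] {S₀ : Finset ℕ} {p : ι → ℕ}
    (hp : Function.Injective p) (hd : ∀ i, p i ∉ S₀) : S₀ ⊕ ι ≃ (S₀ ∪ univ.image p : Finset ℕ) :=
  Equiv.ofBijective (Sum.elim (fun u => ⟨u, mem_union_left _ u.2⟩)
    (fun i => ⟨p i, mem_union_right _ (mem_image_of_mem _ (mem_univ _))⟩)) (by
    constructor
    · rintro (u | i) (v | j) he
      · exact congrArg Sum.inl (Subtype.ext (congrArg Subtype.val he :))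
      · have h1 : (u : ℕ) = p j := congrArg Subtype.val he
        exact absurd (h1 ▸ u.2) (hd j)
      · have h1 : (v : ℕ) = p i := congrArg Subtype.val he.symm
        exact absurd (h1 ▸ v.2) (hd i)
      · exact congrArg Sum.inr (hp (congrArg Subtype.val he :))
    · rintro ⟨q, hq⟩
      rcases mem_union.1 hq with h | h
      · exact ⟨Sum.inl ⟨q, h⟩, rfl⟩
      · obtain ⟨i, -, rfl⟩ := mem_image.1 h
        exact ⟨Sum.inr i, rfl⟩)

include L

theorem sel_block {V : Type} [AddCommGroup V] [Module (ZMod 2) V] (D : Dj (Option T) V)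
    {ι : Type} [Fintype ι] [LinearOrder ι] {S₀ : Finset ℕ} {p : ι → ℕ}
    (hP : ∀ i, (RT T L.toTS).Φ.P (p i)) (hp : Function.Injective p) (hd : ∀ i, p i ∉ S₀) :
    finrank (ZMod 2) (Sel D (fun a b : ↥(S₀ ∪ univ.image p) => nr a b)
      (fun a : ↥(S₀ ∪ univ.image p) => lbl T a)) =
    finrank (ZMod 2) (Sel D ((bkT T S₀ p).N none fun e : prs (univ : Finset ι) =>
      nr (p e.1.1) (p e.1.2)) (bkT T S₀ p).h) := by
  symm
  refine sel_reindex D (eqS hp hd) _ _ _ _ ?_ ?_
  · rintro (u | i) <;> rfl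
  · rintro (u | i) (v | j) hne
    · rfl
    · rfl
    · rfl
    · show nr (p i) (p j) = ext (fun e : prs (univ : Finset ι) => nr (p e.1.1) (p e.1.2)) i j +
        (if j < i then lbl T (p i) none * lbl T (p j) none else 0)
      have hij : i ≠ j := fun h => hne (congrArg Sum.inr h)
      obtain ⟨h1, h2⟩ := (RT_P L.toTS).1 (hP i)
      obtain ⟨h3, h4⟩ := (RT_P L.toTS).1 (hP j)
      rcases lt_or_gt_of_ne hij with h | h
      · rw [if_neg h.asymm, add_zero, Pool.Agent.Y219.CQ.ext_pos univ _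
          ((Pool.Agent.Y219.CQ.mem_prs univ i j).2 ⟨mem_univ _, h.ne', fun _ => h⟩)]
      · rw [if_pos h, Pool.Agent.Y219.CQ.ext_neg univ _
          ((Pool.Agent.Y219.CQ.mem_prs univ j i).2 ⟨mem_univ _, h.ne', fun _ => h⟩) (mem_univ _),
          lbl_none L h1 h2, lbl_none L h3 h4]
        exact nr_rec h1 (L.toTS.ne2 h2) h3 (L.toTS.ne2 h4) fun he => hij (hp he)

omit L

/-- the block depends only on the labels -/
theorem bkT_lab {ι : Type} {S₀ : Finset ℕ} {p p' : ι → ℕ} {Λ : Type} {lb : ℕ → Λ}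
    (hl : ∀ i, lbl T (p i) = lbl T (p' i)) (he : ∀ i, lab lb S₀ (p i) = lab lb S₀ (p' i)) :
    bkT T S₀ p' = bkT T S₀ p := by
  have h1 : ∀ i, ∀ u : S₀, nr (p i) u = nr (p' i) u := fun i u =>
    congrFun (congrArg (fun t => t.2.1) (he i)) u
  have h2 : ∀ i, ∀ u : S₀, nr u (p i) = nr u (p' i) := fun i u =>
    congrFun (congrArg (fun t => t.1) (he i)) u
  unfold bkT
  congr 1
  · funext u i
    exact (h2 i u).symm
  · funext i u
    exact (h1 i u).symm
  · funext i
    exact (hl i).symm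

end Q44.JQ
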